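import Pool.Agent.W797.Har.Dual

/-! # Rescaled bumps -/

set_option autoImplicit false

open MeasureTheory Set Filter Topology Metric
open scoped InnerProductSpace ContDiff Laplacian ENNReal Convolution
open Pool.Agent.Helper486.TP

namespace Pool.Agent.W797.Har

variable {n : ℕ}

/-- the base bump -/
noncomputable def bumpB (n : ℕ) : ContDiffBump (0 : E n) :=
  ⟨1 / 2, 1, by norm_num, by norm_num⟩

/-- the normalised base bump -/
noncomputable def bump1 (n : ℕ) : E n → ℝ := (bumpB n).normed volume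

theorem bump1_smooth : ContDiff ℝ ∞ (bump1 n) := (bumpB n).contDiff_normed

theorem bump1_support : Function.support (bump1 n) = ball 0 1 := (bumpB n).support_normed_eq

theorem bump1_cs : HasCompactSupport (bump1 n) := (bumpB n).hasCompactSupport_normed

theorem bump1_neg (x : E n) : bump1 n (-x) = bump1 n x := (bumpB n).normed_neg x

theorem bump1_nonneg (x : E n) : 0 ≤ bump1 n x := (bumpB n).nonneg_normed x

theorem bump1_int : ∫ x, bump1 n x = 1 := (bumpB n).integral_normed

/-- translated and rescaled bump -/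
noncomputable def bumpS (s : ℝ) (z : E n) (x : E n) : ℝ := (s ^ n)⁻¹ * bump1 n (s⁻¹ • (x - z))

theorem bumpS_smooth (s : ℝ) (z : E n) : ContDiff ℝ ∞ (bumpS s z) := by
  unfold bumpS
  exact contDiff_const.mul (bump1_smooth.comp ((contDiff_id.sub contDiff_const).const_smul s⁻¹))

theorem bumpS_support {s : ℝ} (hs : 0 < s) (z : E n) : Function.support (bumpS s z) = ball z s := by
  ext x
  rw [Function.mem_support, bumpS]
  have h1 : (s ^ n)⁻¹ ≠ 0 := by positivity
  have h2 : (s ^ n)⁻¹ * bump1 n (s⁻¹ • (x - z)) ≠ 0 ↔ s⁻¹ • (x - z) ∈ Function.support (bump1 n) := by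
    rw [Function.mem_support, mul_ne_zero_iff]
    exact ⟨fun h => h.2, fun h => ⟨h1, h⟩⟩
  rw [h2, bump1_support, mem_ball_zero_iff, norm_smul, norm_inv, Real.norm_eq_abs, abs_of_pos hs,
    mem_ball, dist_eq_norm, inv_mul_lt_iff₀ hs, mul_one]

theorem bumpS_tsupport {s : ℝ} (hs : 0 < s) (z : E n) : tsupport (bumpS s z) = closedBall z s := by
  rw [tsupport, bumpS_support hs, closure_ball _ hs.ne']

theorem bumpS_cs {s : ℝ} (hs : 0 < s) (z : E n) : HasCompactSupport (bumpS s z) := by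
  rw [HasCompactSupport, bumpS_tsupport hs]
  exact isCompact_closedBall z s

theorem bumpS_ne {s : ℝ} (hs : 0 < s) (z : E n) : bumpS s z ≠ 0 := by
  intro h
  have h1 := bumpS_support hs z
  rw [h, Function.support_zero] at h1
  have : z ∈ ball z s := mem_ball_self hs
  rw [← h1] at this
  exact this

theorem bumpS_int {s : ℝ} (hs : 0 < s) : ∫ x, bumpS s (0 : E n) x = 1 := by
  unfold bumpS
  simp only [sub_zero]
  rw [integral_const_mul, Measure.integral_comp_inv_smul_of_nonneg volume (bump1 n) hs.le,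
    bump1_int, finrank_euclideanSpace, Fintype.card_fin, smul_eq_mul, mul_one]
  exact inv_mul_cancel₀ (by positivity)

theorem bumpS_ker {s : ℝ} (hs : 0 < s) : IsKer (bumpS s (0 : E n)) s where
  smooth := bumpS_smooth s 0
  cs := bumpS_cs hs 0
  even x := by
    unfold bumpS
    rw [sub_zero, sub_zero, smul_neg, bump1_neg]
  nonneg x := mul_nonneg (by positivity) (bump1_nonneg _)
  supp := (bumpS_tsupport hs 0).le
  mass := bumpS_int hs

theorem exists_unit (hn : 0 < n) : ∃ e : E n, ‖e‖ = 1 := by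
  have : Nonempty (Fin n) := ⟨⟨0, hn⟩⟩
  exact exists_norm_eq (E n) zero_le_one

theorem bumpS_least (hn : 0 < n) {s : ℝ} (hs : 0 < s) (z : E n) :
    IsLeastBall (tsupport (bumpS s z)) z s where
  nonneg := hs.le
  sub := (bumpS_tsupport hs z).le
  least a' r' h := by
    rw [bumpS_tsupport hs] at h
    obtain ⟨e, he⟩ := exists_unit hn
    have h1 : z + s • e ∈ closedBall z s := by
      rw [mem_closedBall, dist_eq_norm, add_sub_cancel_left, norm_smul, he, mul_one,
        Real.norm_eq_abs, abs_of_pos hs]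
    have h2 : z - s • e ∈ closedBall z s := by
      rw [mem_closedBall, dist_eq_norm, sub_sub_cancel_left, norm_neg, norm_smul, he, mul_one,
        Real.norm_eq_abs, abs_of_pos hs]
    have h3 := mem_closedBall.1 (h h1)
    have h4 := mem_closedBall.1 (h h2)
    have h5 : dist (z + s • e) (z - s • e) = 2 * s := by
      rw [dist_eq_norm, add_sub_sub_cancel, ← two_smul ℝ, norm_smul, norm_smul, he]
      simp [abs_of_pos hs]
    have h6 := dist_triangle_right (z + s • e) (z - s • e) a'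
    linarith

theorem bumpS_diam (hn : 0 < n) {s : ℝ} (hs : 0 < s) (z : E n) :
    diam (tsupport (bumpS s z)) = 2 * s := by
  rw [bumpS_tsupport hs]
  apply le_antisymm (diam_closedBall hs.le)
  obtain ⟨e, he⟩ := exists_unit hn
  have h1 : z + s • e ∈ closedBall z s := by
    rw [mem_closedBall, dist_eq_norm, add_sub_cancel_left, norm_smul, he, mul_one,
      Real.norm_eq_abs, abs_of_pos hs]
  have h2 : z - s • e ∈ closedBall z s := by
    rw [mem_closedBall, dist_eq_norm, sub_sub_cancel_left, norm_neg, norm_smul, he, mul_one,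
      Real.norm_eq_abs, abs_of_pos hs]
  have h5 : dist (z + s • e) (z - s • e) = 2 * s := by
    rw [dist_eq_norm, add_sub_sub_cancel, ← two_smul ℝ, norm_smul, norm_smul, he]
    simp [abs_of_pos hs]
  rw [← h5]
  exact dist_le_diam_of_mem isBounded_closedBall h1 h2

/-- the norms of the derivatives of the base bump -/
noncomputable def bumpA (n k : ℕ) : ℝ := ⨆ x, ‖iteratedFDeriv ℝ k (bump1 n) x‖

theorem bump1_bdd (k : ℕ) : BddAbove (range (fun x => ‖iteratedFDeriv ℝ k (bump1 n) x‖)) := by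
  have h1 : Continuous (iteratedFDeriv ℝ k (bump1 n)) :=
    bump1_smooth.continuous_iteratedFDeriv (by exact_mod_cast le_top)
  have h2 : HasCompactSupport (iteratedFDeriv ℝ k (bump1 n)) := bump1_cs.iteratedFDeriv k
  exact h1.norm.bddAbove_range_of_hasCompactSupport h2.norm

theorem bumpA_nonneg (n k : ℕ) : 0 ≤ bumpA n k := Real.iSup_nonneg (fun _ => norm_nonneg _)

theorem bumpS_deriv {s : ℝ} (hs : 0 < s) (z : E n) (k : ℕ) (x : E n) :
    ‖iteratedFDeriv ℝ k (bumpS s z) x‖ ≤ (s ^ n)⁻¹ * (bumpA n k * s⁻¹ ^ k) := by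
  have h1 : bumpS s z = (s ^ n)⁻¹ • (fun y => (bump1 n ∘ (s⁻¹ • ContinuousLinearMap.id ℝ (E n))) (y - z)) := by
    ext y
    simp [bumpS]
  have h2 : ContDiff ℝ ∞ (bump1 n ∘ (s⁻¹ • ContinuousLinearMap.id ℝ (E n))) :=
    bump1_smooth.comp (ContinuousLinearMap.contDiff _)
  have h3 : ContDiff ℝ ∞ (fun y => (bump1 n ∘ (s⁻¹ • ContinuousLinearMap.id ℝ (E n))) (y - z)) :=
    h2.comp (contDiff_id.sub contDiff_const)
  rw [h1, iteratedFDeriv_const_smul_apply ((h3.of_le (by exact_mod_cast le_top)).contDiffAt),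
    iteratedFDeriv_comp_sub,
    ContinuousLinearMap.iteratedFDeriv_comp_right _ bump1_smooth _ (by exact_mod_cast le_top), norm_smul,
    norm_inv, Real.norm_eq_abs, abs_of_pos (by positivity)]
  gcongr
  refine (ContinuousMultilinearMap.norm_compContinuousLinearMap_le _ _).trans ?_
  rw [Finset.prod_const, Finset.card_univ, Fintype.card_fin]
  have h4 : ‖(s⁻¹ • ContinuousLinearMap.id ℝ (E n) : E n →L[ℝ] E n)‖ ≤ s⁻¹ := by
    rw [norm_smul, norm_inv, Real.norm_eq_abs, abs_of_pos hs]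
    calc s⁻¹ * ‖ContinuousLinearMap.id ℝ (E n)‖ ≤ s⁻¹ * 1 := by
          gcongr
          exact ContinuousLinearMap.norm_id_le
      _ = s⁻¹ := mul_one _
  gcongr
  · exact bumpA_nonneg n k
  · exact le_ciSup (bump1_bdd k) _

/-- the size functional is adapted to the bumps -/
def SizeOK (S : (E n → ℝ) → ℝ) : Prop :=
  ∃ A : ℝ, 0 ≤ A ∧ ∀ (s : ℝ) (z : E n), 0 < s → S (bumpS s z) ≤ A * (s ^ n)⁻¹

theorem sizeOK_N (hn : 0 < n) (N : ℕ) : SizeOK (n := n) (starNormN N) := by
  refine ⟨∑ k ∈ Finset.range (N + 1), 2 ^ k * bumpA n k, ?_, ?_⟩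
  · exact Finset.sum_nonneg (fun k _ => mul_nonneg (by positivity) (bumpA_nonneg n k))
  · intro s z hs
    unfold starNormN
    rw [bumpS_diam hn hs, Finset.sum_mul]
    apply Finset.sum_le_sum
    intro k _
    have h1 : ⨆ x, ‖iteratedFDeriv ℝ k (bumpS s z) x‖ ≤ (s ^ n)⁻¹ * (bumpA n k * s⁻¹ ^ k) :=
      Real.iSup_le (fun x => bumpS_deriv hs z k x)
        (mul_nonneg (by positivity) (mul_nonneg (bumpA_nonneg n k) (by positivity)))
    calc (2 * s) ^ k * ⨆ x, ‖iteratedFDeriv ℝ k (bumpS s z) x‖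
        ≤ (2 * s) ^ k * ((s ^ n)⁻¹ * (bumpA n k * s⁻¹ ^ k)) := by gcongr
      _ = 2 ^ k * bumpA n k * (s ^ n)⁻¹ * (s * s⁻¹) ^ k := by rw [mul_pow, mul_pow]; ring
      _ = 2 ^ k * bumpA n k * (s ^ n)⁻¹ := by rw [mul_inv_cancel₀ hs.ne', one_pow, mul_one]

theorem starNorm_eq (φ : Eu n → ℝ) : starNormN 1 φ = starNorm φ := by
  unfold starNormN starNorm
  rw [Finset.sum_range_succ, Finset.sum_range_one]
  simp only [pow_zero, one_mul, pow_one, norm_iteratedFDeriv_zero, norm_iteratedFDeriv_one,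
    Real.norm_eq_abs]

theorem sizeOK_star (hn : 0 < n) : SizeOK (n := n) starNorm := by
  obtain ⟨A, hA, h⟩ := sizeOK_N hn 1
  refine ⟨A, hA, fun s z hs => ?_⟩
  rw [← starNorm_eq]
  exact h s z hs

end Pool.Agent.W797.Har
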