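import Pool.Agent.W797.Har.Defs

/-! # A grid of cubes -/

set_option autoImplicit false

open MeasureTheory Set Filter Topology Metric
open scoped InnerProductSpace ContDiff ENNReal

namespace Pool.Agent.W797.Har

variable {n : ℕ}

/-- index of the cube containing `y` -/
noncomputable def idx (s : ℝ) (y : Eu n) : Fin n → ℤ := fun i => ⌊y i / s⌋

/-- cube -/
def cube (s : ℝ) (k : Fin n → ℤ) : Set (Eu n) := {y | idx s y = k}

/-- corner -/
noncomputable def corner (s : ℝ) (k : Fin n → ℤ) : Eu n := WithLp.toLp 2 (fun i => s * k i)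

theorem norm_le_sum (x : Eu n) : ‖x‖ ≤ ∑ i, |x i| := by
  rw [EuclideanSpace.norm_eq]
  apply Real.sqrt_le_iff.2
  constructor
  · positivity
  · have h := Finset.sum_sq_le_sq_sum_of_nonneg (s := Finset.univ) (f := fun i => |x i|)
      (fun i _ => abs_nonneg _)
    simpa using h

theorem cube_near {s : ℝ} (hs : 0 < s) {k : Fin n → ℤ} {y : Eu n} (hy : y ∈ cube s k) :
    ‖y - corner s k‖ ≤ n * s := by
  refine (norm_le_sum _).trans ?_
  calc ∑ i, |(y - corner s k) i| ≤ ∑ _i : Fin n, s := by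
        apply Finset.sum_le_sum
        intro i _
        have h1 : ⌊y i / s⌋ = k i := congrFun hy i
        have h2 : (k i : ℝ) ≤ y i / s := by rw [← h1]; exact Int.floor_le _
        have h3 : y i / s < k i + 1 := by rw [← h1]; exact Int.lt_floor_add_one _
        rw [le_div_iff₀ hs] at h2
        rw [div_lt_iff₀ hs] at h3
        have h4 : (y - corner s k) i = y i - s * k i := rfl
        rw [h4, abs_le]
        constructor <;> nlinarith
    _ = n * s := by simp

theorem idx_meas (s : ℝ) : Measurable (idx s : Eu n → Fin n → ℤ) := by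
  apply measurable_pi_lambda
  intro i
  apply Int.measurable_floor.comp
  have : Continuous (fun y : Eu n => y i) := by fun_prop
  exact this.measurable.div_const s

theorem cube_meas (s : ℝ) (k : Fin n → ℤ) : MeasurableSet (cube s k : Set (Eu n)) :=
  idx_meas s (measurableSet_singleton k)

theorem cube_disj (s : ℝ) {k l : Fin n → ℤ} (h : k ≠ l) :
    Disjoint (cube s k : Set (Eu n)) (cube s l) := by
  rw [Set.disjoint_left]
  intro y h1 h2
  exact h (h1.symm.trans h2)

theorem cube_vol {s : ℝ} (hs : 0 < s) (k : Fin n → ℤ) :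
    volume (cube s k : Set (Eu n)) = ENNReal.ofReal (s ^ n) := by
  have h1 : (cube s k : Set (Eu n)) = (@WithLp.ofLp 2 (Fin n → ℝ)) ⁻¹'
      (Set.pi univ (fun i => Ico (s * k i) (s * (k i + 1)))) := by
    ext y
    simp only [cube, idx, Set.mem_ofPred_eq, mem_preimage, Set.mem_pi, mem_univ, true_implies, mem_Ico,
      funext_iff, Int.floor_eq_iff]
    apply forall_congr'
    intro i
    rw [le_div_iff₀ hs, div_lt_iff₀ hs, mul_comm (k i : ℝ) s, mul_comm ((k i : ℝ) + 1) s]
  rw [h1, (PiLp.volume_preserving_ofLp (Fin n)).measure_preimage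
    (MeasurableSet.pi countable_univ (fun i _ => measurableSet_Ico)).nullMeasurableSet,
    Real.volume_pi_Ico]
  have : ∀ i, s * ((k i : ℝ) + 1) - s * k i = s := fun i => by ring
  simp only [this]
  rw [Finset.prod_const, Finset.card_univ, Fintype.card_fin, ENNReal.ofReal_pow hs.le]

/-- indices of the cubes meeting a ball -/
noncomputable def gridS (n : ℕ) (s M : ℝ) : Finset (Fin n → ℤ) :=
  Fintype.piFinset (fun _ => Finset.Icc ⌊-M / s⌋ ⌊M / s⌋)

theorem mem_gridS {s M : ℝ} (hs : 0 < s) {y : Eu n} (hy : ‖y‖ ≤ M) : idx s y ∈ gridS n s M := by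
  rw [gridS, Fintype.mem_piFinset]
  intro i
  rw [Finset.mem_Icc]
  have h1 : |y i| ≤ M := (PiLp.norm_apply_le y i).trans hy
  rw [abs_le] at h1
  constructor
  · apply Int.floor_le_floor
    gcongr
    exact h1.1
  · apply Int.floor_le_floor
    gcongr
    exact h1.2

/-- a convergent integral -/
noncomputable def In (n : ℕ) : ℝ≥0∞ := ∫⁻ v : Eu n, ENNReal.ofReal ((1 + ‖v‖) ^ (n + 2))⁻¹

theorem In_fin (n : ℕ) : In n ≠ ⊤ := by
  have h := integrable_one_add_norm (E := Eu n) (μ := volume) (r := (n : ℝ) + 2) (by simp)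
  have h2 := h.lintegral_lt_top
  refine ne_of_lt (lt_of_le_of_lt (le_of_eq ?_) h2)
  unfold In
  congr 1
  ext v
  congr 1
  rw [Real.rpow_neg (by positivity)]
  norm_cast

theorem In_scale {s : ℝ} (hs : 0 < s) (y : Eu n) :
    ∫⁻ u : Eu n, ENNReal.ofReal ((1 + ‖y - u‖ / s) ^ (n + 2))⁻¹ = ENNReal.ofReal (s ^ n) * In n := by
  have h1 : ∫⁻ u : Eu n, ENNReal.ofReal ((1 + ‖y - u‖ / s) ^ (n + 2))⁻¹
      = ∫⁻ u : Eu n, ENNReal.ofReal ((1 + ‖u‖ / s) ^ (n + 2))⁻¹ :=
    lintegral_sub_left_eq_self (fun u : Eu n => ENNReal.ofReal ((1 + ‖u‖ / s) ^ (n + 2))⁻¹) y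
  rw [h1]
  have h2 : (fun u : Eu n => ENNReal.ofReal ((1 + ‖u‖ / s) ^ (n + 2))⁻¹)
      = fun u => (fun v : Eu n => ENNReal.ofReal ((1 + ‖v‖) ^ (n + 2))⁻¹) (s⁻¹ • u) := by
    ext u
    simp only
    rw [norm_smul, norm_inv, Real.norm_eq_abs, abs_of_pos hs]
    congr 4
    field_simp
  rw [h2]
  have h3 := Measure.map_addHaar_smul (volume : Measure (Eu n)) (inv_ne_zero hs.ne')
  have hm : Measurable (fun v : Eu n => ENNReal.ofReal ((1 + ‖v‖) ^ (n + 2))⁻¹) := by
    apply Measurable.ennreal_ofReal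
    exact ((measurable_norm.const_add 1).pow_const _).inv
  rw [← lintegral_map hm (measurable_const_smul s⁻¹), h3, lintegral_smul_measure]
  unfold In
  rw [finrank_euclideanSpace, Fintype.card_fin, inv_pow, inv_inv, abs_of_pos (by positivity)]
  rfl

/-- constant -/
noncomputable def c3 (n : ℕ) : ℝ≥0∞ := ENNReal.ofReal (((n : ℝ) + 1) ^ (n + 2)) * In n

theorem c3_fin (n : ℕ) : c3 n ≠ ⊤ := ENNReal.mul_ne_top ENNReal.ofReal_ne_top (In_fin n)

theorem grid_sum {s : ℝ} (hs : 0 < s) (S : Finset (Fin n → ℤ)) (y : Eu n) :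
    ∑ k ∈ S, ENNReal.ofReal (1 / (1 + ‖y - corner s k‖ / ((n + 1) * s)) ^ (n + 2)) ≤ c3 n := by
  have hsn : ENNReal.ofReal (s ^ n) ≠ 0 := by
    rw [Ne, ENNReal.ofReal_eq_zero, not_le]; positivity
  have h1 : ∀ k ∈ S, ENNReal.ofReal (1 / (1 + ‖y - corner s k‖ / ((n + 1) * s)) ^ (n + 2))
      * ENNReal.ofReal (s ^ n)
      ≤ ∫⁻ u in cube s k, ENNReal.ofReal (((n : ℝ) + 1) ^ (n + 2))
        * ENNReal.ofReal ((1 + ‖y - u‖ / s) ^ (n + 2))⁻¹ := by
    intro k _
    rw [← cube_vol hs k, ← setLIntegral_const]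
    apply setLIntegral_mono' (cube_meas s k)
    intro u hu
    have h2 := cube_near hs hu
    rw [← ENNReal.ofReal_mul (by positivity)]
    apply ENNReal.ofReal_le_ofReal
    rw [← div_eq_mul_inv, div_le_div_iff₀ (by positivity) (by positivity), one_mul, ← mul_pow]
    apply pow_le_pow_left₀ (by positivity)
    have h3 : ‖y - u‖ ≤ ‖y - corner s k‖ + n * s := by
      have h4 : y - u = (y - corner s k) - (u - corner s k) := by abel
      rw [h4]
      exact (norm_sub_le _ _).trans (by linarith)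
    have h5 : ((n : ℝ) + 1) * (1 + ‖y - corner s k‖ / ((n + 1) * s))
        = 1 + (‖y - corner s k‖ + n * s) / s := by
      field_simp
      ring
    rw [h5]
    gcongr
  have h2 : (∑ k ∈ S, ENNReal.ofReal (1 / (1 + ‖y - corner s k‖ / ((n + 1) * s)) ^ (n + 2)))
      * ENNReal.ofReal (s ^ n) ≤ c3 n * ENNReal.ofReal (s ^ n) := by
    rw [Finset.sum_mul]
    refine (Finset.sum_le_sum h1).trans ?_
    rw [← lintegral_biUnion_finset (fun k _ l _ hkl => cube_disj s hkl)
      (fun k _ => cube_meas s k)]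
    refine (setLIntegral_le_lintegral _ _).trans ?_
    have hm : Measurable (fun u : Eu n => ENNReal.ofReal ((1 + ‖y - u‖ / s) ^ (n + 2))⁻¹) := by
      apply Measurable.ennreal_ofReal
      have hc : Measurable (fun u : Eu n => ‖y - u‖) := (by fun_prop : Continuous _).measurable
      exact (((hc.div_const s).const_add 1).pow_const _).inv
    rw [lintegral_const_mul _ hm, In_scale hs, c3]
    apply le_of_eq
    ring
  exact (ENNReal.mul_le_mul_iff_left hsn ENNReal.ofReal_ne_top).1 h2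

end Pool.Agent.W797.Har
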