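import Pool.Agent.W797.Har.MIneq
import Pool.Agent.W797.Har.Grid

/-! # Capacities and the sum over the grid -/

set_option autoImplicit false

open MeasureTheory Set Filter Topology Metric
open scoped InnerProductSpace ContDiff Laplacian ENNReal Convolution
open Pool.Agent.Helper486.TP

namespace Pool.Agent.W797.Har

variable {n : ℕ}

theorem hcap_mono {A B : Set (Eu n)} (h : A ⊆ B) : hcap A ≤ hcap B := by
  unfold hcap
  apply iSup_le; intro F
  apply iSup_le; rintro ⟨hF, hFA⟩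
  apply iSup_le; intro μ
  apply iSup_le; intro hμ
  exact le_iSup_of_le F (le_iSup_of_le ⟨hF, hFA.trans h⟩ (le_iSup_of_le μ (le_iSup_of_le hμ le_rfl)))

theorem hcap_le {A : Set (E n)} {b : E n} {r : ℝ} (hr : 0 < r) (hA : A ⊆ closedBall b r) :
    hcap A ≤ ENNReal.ofReal (2 * r) ^ (n - 2) := by
  unfold hcap
  apply iSup_le; intro F
  apply iSup_le; rintro ⟨hF, hFA⟩
  apply iSup_le; intro μ
  apply iSup_le; intro hμ
  exact (measure_mono (subset_univ _)).trans (mass_bound hr (hFA.trans hA) hμ)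

theorem hcap_fin {A : Set (E n)} {b : E n} {r : ℝ} (hr : 0 < r) (hA : A ⊆ closedBall b r) :
    hcap A ≠ ⊤ :=
  ne_top_of_le_ne_top (ENNReal.pow_ne_top ENNReal.ofReal_ne_top) (hcap_le hr hA)

theorem hcap_half {A : Set (E n)} {b : E n} {r : ℝ} (hr : 0 < r) (hA : A ⊆ closedBall b r) :
    ∃ (F : Set (E n)) (ν : Measure (E n)), IsCompact F ∧ F ⊆ A ∧ Admissible F ν ∧
      hcap A ≤ 2 * ν univ := by
  by_cases h0 : hcap A = 0
  · refine ⟨∅, 0, isCompact_empty, empty_subset _, ⟨?_, ?_⟩, ?_⟩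
    · simp
    · intro x; simp
    · rw [h0]; exact bot_le
  · have h1 : hcap A / 2 < hcap A := ENNReal.half_lt_self h0 (hcap_fin hr hA)
    have h2 : hcap A / 2 < ⨆ (F : Set (Eu n)) (_ : IsCompact F ∧ F ⊆ A) (μ : Measure (Eu n))
      (_ : Admissible F μ), μ F := h1
    obtain ⟨F, h3⟩ := lt_iSup_iff.1 h2
    obtain ⟨⟨hF, hFA⟩, h4⟩ := lt_iSup_iff.1 h3
    obtain ⟨μ, h5⟩ := lt_iSup_iff.1 h4
    obtain ⟨hμ, h6⟩ := lt_iSup_iff.1 h5
    refine ⟨F, μ, hF, hFA, hμ, ?_⟩
    have h7 : hcap A / 2 ≤ μ univ := h6.le.trans (measure_mono (subset_univ _))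
    rw [ENNReal.div_le_iff (by norm_num) (by norm_num)] at h7
    rwa [mul_comm] at h7

theorem cube_split {s : ℝ} (S : Finset (Fin n → ℤ)) {W : E n → ℝ≥0∞}
    (hW : ∀ y, W y ≠ 0 → idx s y ∈ S) : ∫⁻ y, W y ≤ ∑ k ∈ S, ∫⁻ y in cube s k, W y := by
  rw [← lintegral_biUnion_finset (fun k _ l _ hkl => cube_disj s hkl)
      (fun k _ => cube_meas s k)]
  have hm : MeasurableSet (⋃ k ∈ S, (cube s k : Set (E n))) :=
    Finset.measurableSet_biUnion S (fun k _ => cube_meas s k)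
  rw [← lintegral_indicator hm]
  apply lintegral_mono
  intro y
  by_cases hy : W y = 0
  · simp only [hy]; exact bot_le
  · rw [indicator_of_mem]
    exact mem_biUnion (hW y hy) rfl

theorem cube_sub {s : ℝ} (hs : 0 < s) (k : Fin n → ℤ) :
    (cube s k : Set (E n)) ⊆ closedBall (corner s k) ((n + 1) * s) := by
  intro y hy
  rw [mem_closedBall, dist_eq_norm]
  have := cube_near hs hy
  linarith

theorem ofReal_mul_two {a : ℝ} (ha : 0 ≤ a) : ENNReal.ofReal a * 2 = ENNReal.ofReal (a * 2) := by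
  rw [ENNReal.ofReal_mul ha]
  norm_num

theorem one_cube (hn : 3 ≤ n) {c : ℝ} (hc : NewtConst n c) {h : E n → ℝ}
    (hh : ContDiff ℝ ∞ h) (hsu : HasCompactSupport h) (h0 : ∀ x, 0 ≤ h x) {s : ℝ} (hs : 0 < s)
    (k : Fin n → ℤ) {F : Set (E n)} {ν : Measure (E n)} {cap : ℝ≥0∞}
    (hF : F ⊆ closedBall (corner s k) ((n + 1) * s)) (hhF : ∀ x ∈ F, h x = 0)
    (hν : Admissible F ν) (hcap : cap ≤ 2 * ν univ) :
    ENNReal.ofReal (∫ y in cube s k, h y) * cap ≤
      ENNReal.ofReal (2 * ((n + 1) * s) ^ n / c1 n) *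
        ∫⁻ y, ENNReal.ofReal (c2 n / (1 + ‖y - corner s k‖ / ((n + 1) * s)) ^ (n + 2))
          * ENNReal.ofReal |(Δ h) y| := by
  set r : ℝ := (n + 1) * s with hr
  have hr0 : 0 < r := by positivity
  have h1 := M_ineq hn hc hh hsu h0 hr0 hF (cube_sub hs k) (cube_meas s k) hhF hν
  have h2 : ∫⁻ y, gpot r ν y * ENNReal.ofReal |(Δ h) y| ≤
      ∫⁻ y, ENNReal.ofReal (c2 n / (1 + ‖y - corner s k‖ / r) ^ (n + 2))
          * ENNReal.ofReal |(Δ h) y| := by
    apply lintegral_mono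
    intro y
    exact mul_le_mul_left (gpot_bound hn hr0 hF hν y) _
  have hc1 := c1_pos hn
  have hI : 0 ≤ ∫ y in cube s k, h y := integral_nonneg h0
  have h3 : ENNReal.ofReal (∫ y in cube s k, h y) * 2
      = ENNReal.ofReal (2 * r ^ n / c1 n) * ENNReal.ofReal (c1 n / r ^ n * ∫ y in cube s k, h y) := by
    rw [← ENNReal.ofReal_mul (by positivity), ofReal_mul_two hI]
    congr 1
    field_simp
  calc ENNReal.ofReal (∫ y in cube s k, h y) * cap
      ≤ ENNReal.ofReal (∫ y in cube s k, h y) * (2 * ν univ) := by gcongr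
    _ = ENNReal.ofReal (2 * r ^ n / c1 n) *
        (ENNReal.ofReal (c1 n / r ^ n * ∫ y in cube s k, h y) * ν univ) := by
        rw [← mul_assoc, h3, mul_assoc]
    _ ≤ _ := by
        gcongr
        exact h1.trans h2

theorem sum_cubes {s : ℝ} (hs : 0 < s) (S : Finset (Fin n → ℤ)) {h : E n → ℝ}
    (hh : ContDiff ℝ ∞ h) (hsu : HasCompactSupport h) :
    ∑ k ∈ S, ∫⁻ y, ENNReal.ofReal (c2 n / (1 + ‖y - corner s k‖ / ((n + 1) * s)) ^ (n + 2))
          * ENNReal.ofReal |(Δ h) y|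
      ≤ ENNReal.ofReal (c2 n) * c3 n * ENNReal.ofReal (∫ y, |(Δ h) y|) := by
  have hLc := lap_cont hh
  have hLm : Measurable (fun y => ENNReal.ofReal |(Δ h) y|) := hLc.abs.measurable.ennreal_ofReal
  have hm : ∀ k : Fin n → ℤ, Measurable (fun y : E n =>
      ENNReal.ofReal (c2 n / (1 + ‖y - corner s k‖ / ((n + 1) * s)) ^ (n + 2))
          * ENNReal.ofReal |(Δ h) y|) := by
    intro k
    have hc : Measurable (fun u : E n => ‖u - corner s k‖) := (by fun_prop : Continuous _).measurable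
    exact ((((hc.div_const _).const_add 1).pow_const _).const_div _).ennreal_ofReal.mul hLm
  rw [← lintegral_finsetSum S (fun k _ => hm k)]
  have hLi : Integrable (fun y => |(Δ h) y|) :=
    (hLc.integrable_of_hasCompactSupport (lap_cs hsu)).abs
  rw [ofReal_integral_eq_lintegral_ofReal hLi (ae_of_all _ (fun y => abs_nonneg _)),
    ← lintegral_const_mul _ hLm]
  apply lintegral_mono
  intro y
  simp only
  rw [← Finset.sum_mul]
  gcongr
  have h1 : ∀ k ∈ S, ENNReal.ofReal (c2 n / (1 + ‖y - corner s k‖ / ((n + 1) * s)) ^ (n + 2))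
      = ENNReal.ofReal (c2 n) * ENNReal.ofReal (1 / (1 + ‖y - corner s k‖ / ((n + 1) * s)) ^ (n + 2)) := by
    intro k _
    rw [← ENNReal.ofReal_mul (c2_pos n).le]
    congr 1
    ring
  rw [Finset.sum_congr rfl h1, ← Finset.mul_sum]
  gcongr
  exact grid_sum hs S y

end Pool.Agent.W797.Har
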