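import Pool.Agent.Helper486.TP.NewtonLap

/-! # Convolutions with test functions and the Laplacian -/

set_option autoImplicit false

open MeasureTheory Set Filter Topology Metric
open scoped InnerProductSpace ContDiff Laplacian ENNReal Convolution
open Pool.Agent.Helper486.TP

namespace Pool.Agent.W797.Har

variable {n : ℕ}

/-- Real convolution `∫ f(t) g(x-t) dt`. -/
noncomputable def cv (f g : E n → ℝ) : E n → ℝ :=
  f ⋆[ContinuousLinearMap.lsmul ℝ ℝ, (volume : Measure (E n))] g

theorem cv_apply (f g : E n → ℝ) (x : E n) : cv f g x = ∫ t, f t * g (x - t) := by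
  simp [cv, convolution_def]

theorem cv_smooth {f g : E n → ℝ} (hf : LocallyIntegrable f) (hg : ContDiff ℝ ∞ g)
    (hs : HasCompactSupport g) : ContDiff ℝ ∞ (cv f g) :=
  hs.contDiff_convolution_right (n := (⊤ : ℕ∞)) _ hf hg

theorem fderiv_cv {f g : E n → ℝ} (hf : LocallyIntegrable f) (hg : ContDiff ℝ ∞ g)
    (hs : HasCompactSupport g) (v x : E n) :
    fderiv ℝ (cv f g) x v = cv f (fun y => fderiv ℝ g y v) x := by
  have hg1 : ContDiff ℝ 1 g := hg.of_le (by norm_cast)
  have h := (hs.hasFDerivAt_convolution_right (ContinuousLinearMap.lsmul ℝ ℝ) hf hg1 x).fderiv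
  unfold cv
  rw [h, convolution_precompR_apply _ hf (hs.fderiv ℝ) (hg1.continuous_fderiv one_ne_zero)]

theorem dsmooth {g : E n → ℝ} (hg : ContDiff ℝ ∞ g) (v : E n) :
    ContDiff ℝ ∞ (fun z => fderiv ℝ g z v) :=
  (hg.fderiv_right (m := ∞) (by norm_cast)).clm_apply contDiff_const

theorem lap_smooth {g : E n → ℝ} (hg : ContDiff ℝ ∞ g) : ContDiff ℝ ∞ (Δ g) := by
  have h : (Δ g) = fun y => ∑ i, fderiv ℝ (fun z => fderiv ℝ g z (EuclideanSpace.basisFun (Fin n) ℝ i)) y
        (EuclideanSpace.basisFun (Fin n) ℝ i) := by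
    ext y; exact nl_lap_eq hg y
  rw [h]
  exact ContDiff.sum (fun i _ => dsmooth (dsmooth hg _) _)

theorem lap_cs {g : E n → ℝ} (hs : HasCompactSupport g) : HasCompactSupport (Δ g) :=
  lap_hasCompactSupport hs

theorem lap_cv {f g : E n → ℝ} (hf : LocallyIntegrable f) (hg : ContDiff ℝ ∞ g)
    (hs : HasCompactSupport g) : Δ (cv f g) = cv f (Δ g) := by
  ext x
  rw [nl_lap_eq (cv_smooth hf hg hs)]
  have h1 : ∀ v : E n, (fun z => fderiv ℝ (cv f g) z v) = cv f (fun y => fderiv ℝ g y v) := by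
    intro v; ext z; exact fderiv_cv hf hg hs v z
  simp_rw [h1]
  have h2 : ∀ v : E n, fderiv ℝ (cv f (fun y => fderiv ℝ g y v)) x v
      = cv f (fun y => fderiv ℝ (fun z => fderiv ℝ g z v) y v) x := by
    intro v
    exact fderiv_cv hf (dsmooth hg v) (hs.fderiv_apply (𝕜 := ℝ) v) v x
  simp_rw [h2, cv_apply]
  rw [← integral_finset_sum]
  · congr 1
    ext t
    rw [nl_lap_eq hg, Finset.mul_sum]
  · intro i _
    have hs2 : HasCompactSupport (fun y => fderiv ℝ (fun z => fderiv ℝ g z (EuclideanSpace.basisFun (Fin n) ℝ i)) y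
        (EuclideanSpace.basisFun (Fin n) ℝ i)) :=
      (hs.fderiv_apply (𝕜 := ℝ) _).fderiv_apply (𝕜 := ℝ) _
    have := hs2.convolutionExists_right (ContinuousLinearMap.lsmul ℝ ℝ) (μ := (volume : Measure (E n))) hf
      (dsmooth (dsmooth hg _) _).continuous x
    simpa [ConvolutionExistsAt] using this

/-- Green identity with one smooth and one test function. -/
theorem green2 {u φ : E n → ℝ} (hu : ContDiff ℝ ∞ u) (hφ : ContDiff ℝ ∞ φ)
    (hs : HasCompactSupport φ) : ∫ y, u y * (Δ φ) y = ∫ y, (Δ u) y * φ y := by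
  simp_rw [nl_lap_eq hφ, nl_lap_eq hu, Finset.mul_sum, Finset.sum_mul]
  rw [integral_finset_sum, integral_finset_sum]
  · apply Finset.sum_congr rfl
    intro i _
    set v := EuclideanSpace.basisFun (Fin n) ℝ i
    rw [int_parts u (fun z => fderiv ℝ φ z v) (hu.of_le (by norm_cast)) ((dsmooth hφ v).of_le (by norm_cast)) (hs.fderiv_apply (𝕜 := ℝ) v) v]
    rw [int_parts (fun z => fderiv ℝ u z v) φ ((dsmooth hu v).of_le (by norm_cast)) (hφ.of_le (by norm_cast)) hs v]
    ring
  · intro i _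
    refine Continuous.integrable_of_hasCompactSupport ?_ (hs.mul_left)
    exact (dsmooth (dsmooth hu _) _).continuous.mul hφ.continuous
  · intro i _
    refine Continuous.integrable_of_hasCompactSupport ?_ (HasCompactSupport.mul_left ?_)
    · exact hu.continuous.mul (dsmooth (dsmooth hφ _) _).continuous
    · exact (hs.fderiv_apply (𝕜 := ℝ) _).fderiv_apply (𝕜 := ℝ) _

/-- the Laplacian of an even function is even -/
theorem lap_even {g : E n → ℝ} (hg : ContDiff ℝ ∞ g) (he : ∀ x, g (-x) = g x) (x : E n) :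
    (Δ g) (-x) = (Δ g) x := by
  have hd : ∀ {k : E n → ℝ}, ContDiff ℝ ∞ k → ∀ (v z : E n),
      fderiv ℝ (fun y => k (-y)) z v = - fderiv ℝ k (-z) v := by
    intro k hk v z
    have h1 : HasFDerivAt k (fderiv ℝ k (-z)) (-z) :=
      (hk.differentiable (by simp) (-z)).hasFDerivAt
    have h2 := h1.comp z (hasFDerivAt_id z).neg
    have h3 : fderiv ℝ (fun y => k (-y)) z = (fderiv ℝ k (-z)).comp (-(ContinuousLinearMap.id ℝ (E n))) :=
      h2.fderiv
    rw [h3]
    simp
  rw [nl_lap_eq hg, nl_lap_eq hg]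
  apply Finset.sum_congr rfl
  intro i _
  set v := EuclideanSpace.basisFun (Fin n) ℝ i
  have h1 : ∀ z, fderiv ℝ g z v = -fderiv ℝ g (-z) v := by
    intro z
    have := hd hg v z
    have h2 : (fun y => g (-y)) = g := by ext y; exact he y
    rw [h2] at this
    exact this
  have h3 : (fun z => fderiv ℝ g z v) = fun z => -(fun y => fderiv ℝ g y v) (-z) := by
    ext z; exact h1 z
  have h4 := hd (dsmooth hg v) v x
  have h5 : fderiv ℝ (fun z => fderiv ℝ g z v) x v = - fderiv ℝ (fun z => (fun y => fderiv ℝ g y v) (-z)) x v := by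
    conv_lhs => rw [h3]
    rw [fderiv_fun_neg]
    simp
  rw [h5, h4, neg_neg]

end Pool.Agent.W797.Har
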