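import Mathlib

/-! # Uniform harmonic approximation and Newtonian capacity: definitions -/

set_option autoImplicit false

open MeasureTheory Set Filter Topology Metric
open scoped InnerProductSpace ContDiff Laplacian ENNReal

namespace Pool.Agent.W797.Har

/-- Euclidean space. -/
abbrev Eu (n : ℕ) : Type := EuclideanSpace ℝ (Fin n)

/-- The kernel `|x - y|^(2-n)` (`n ≥ 3`), infinite on the diagonal. -/
noncomputable def kern {n : ℕ} (x y : Eu n) : ℝ≥0∞ := (ENNReal.ofReal ‖x - y‖ ^ (n - 2))⁻¹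

/-- `μ` is a positive measure carried by `F` whose potential is at most one everywhere. -/
structure Admissible {n : ℕ} (F : Set (Eu n)) (μ : Measure (Eu n)) : Prop where
  supp : μ Fᶜ = 0
  pot : ∀ x, ∫⁻ y, kern x y ∂μ ≤ 1

/-- The (inner) harmonic capacity: the supremum of `μ(F)` over compact `F ⊆ A` and positive
measures `μ` carried by `F` with potential at most one. -/
noncomputable def hcap {n : ℕ} (A : Set (Eu n)) : ℝ≥0∞ :=
  ⨆ (F : Set (Eu n)) (_ : IsCompact F ∧ F ⊆ A) (μ : Measure (Eu n)) (_ : Admissible F μ), μ F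

/-- `closedBall a r` is a closed ball of least diameter containing `A`. -/
structure IsLeastBall {n : ℕ} (A : Set (Eu n)) (a : Eu n) (r : ℝ) : Prop where
  nonneg : 0 ≤ r
  sub : A ⊆ closedBall a r
  least : ∀ (a' : Eu n) (r' : ℝ), A ⊆ closedBall a' r' → r ≤ r'

/-- `‖φ‖_* = ‖φ‖_∞ + d(φ) ‖∇φ‖_∞`, with `d(φ)` the diameter of the support. -/
noncomputable def starNorm {n : ℕ} (φ : Eu n → ℝ) : ℝ :=
  (⨆ x, |φ x|) + diam (tsupport φ) * ⨆ x, ‖fderiv ℝ φ x‖

/-- The analogous norm of order `N`: the sum of `d(φ)^k ‖∇^k φ‖_∞` over `k ≤ N`. -/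
noncomputable def starNormN {n : ℕ} (N : ℕ) (φ : Eu n → ℝ) : ℝ :=
  ∑ k ∈ Finset.range (N + 1), diam (tsupport φ) ^ k * ⨆ x, ‖iteratedFDeriv ℝ k φ x‖

/-- `u` is harmonic on some open set containing `K`. -/
def HarmonicNear {n : ℕ} (K : Set (Eu n)) (u : Eu n → ℝ) : Prop :=
  ∃ U : Set (Eu n), IsOpen U ∧ K ⊆ U ∧ InnerProductSpace.HarmonicOnNhd u U

/-- Condition (1): `f` is a uniform limit on `K` of functions harmonic near `K`. -/
def Cond1 {n : ℕ} (K : Set (Eu n)) (f : Eu n → ℝ) : Prop :=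
  ∃ F : ℕ → Eu n → ℝ, (∀ j, HarmonicNear K (F j)) ∧ TendstoUniformlyOn F f atTop K

/-- A gauge: non-decreasing and non-negative on the positive half-line, with limit zero at zero. -/
structure IsGauge (η : ℝ → ℝ) : Prop where
  mono : MonotoneOn η (Ioi 0)
  nonneg : ∀ t, 0 < t → 0 ≤ η t
  lim : Tendsto η (𝓝[>] 0) (𝓝 0)

/-- The capacity inequality of condition (2) for one test function `φ` and a size functional `S`:
`|∫ f Δφ| ≤ η(d(φ)) S(φ) C(D(φ) \ K)` for each closed ball `D(φ)` of least diameter containing the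
support of `φ`. -/
def CapIneq {n : ℕ} (K : Set (Eu n)) (f : Eu n → ℝ) (η : ℝ → ℝ) (S : (Eu n → ℝ) → ℝ)
    (φ : Eu n → ℝ) : Prop :=
  ∀ (a : Eu n) (r : ℝ), IsLeastBall (tsupport φ) a r →
    ENNReal.ofReal |∫ x, f x * (Δ φ) x|
      ≤ ENNReal.ofReal (η (diam (tsupport φ)) * S φ) * hcap (closedBall a r \ K)

/-- Condition (2) for the size functional `S`. -/
def Cond2 {n : ℕ} (K : Set (Eu n)) (f : Eu n → ℝ) (S : (Eu n → ℝ) → ℝ) : Prop :=
  ∃ η : ℝ → ℝ, IsGauge η ∧ ∀ φ : Eu n → ℝ, ContDiff ℝ ∞ φ → HasCompactSupport φ → φ ≠ 0 →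
    CapIneq K f η S φ

end Pool.Agent.W797.Har
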