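import Pool.Agent.W797.Har.Newt
import Pool.Agent.W797.Har.Defs

/-! # The potential of an annihilating functional -/

set_option autoImplicit false

open MeasureTheory Set Filter Topology Metric
open scoped InnerProductSpace ContDiff Laplacian ENNReal Convolution
open Pool.Agent.Helper486.TP

namespace Pool.Agent.W797.Har

variable {n : ℕ}

/-- Family of translates restricted to `K`. -/
noncomputable def sh (K : Set (E n)) (Q : C(E n, ℝ)) : C(E n, C(K, ℝ)) :=
  ContinuousMap.curry ⟨fun p : E n × K => Q ((p.2 : E n) - p.1), by fun_prop⟩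

theorem sh_apply (K : Set (E n)) (Q : C(E n, ℝ)) (z : E n) (x : K) : sh K Q z x = Q (x - z) := rfl

/-- The functional annihilates restrictions of functions harmonic near `K`. -/
def Ann (K : Set (E n)) (ℓ : C(K, ℝ) →L[ℝ] ℝ) : Prop :=
  ∀ u : E n → ℝ, HarmonicNear K u → ∀ g : C(K, ℝ), (∀ x : K, g x = u x) → ℓ g = 0

theorem int_sh (K : Set (E n)) [CompactSpace K] (ℓ : C(K, ℝ) →L[ℝ] ℝ) (Q : C(E n, ℝ)) {ψ : E n → ℝ}
    (hψ : Continuous ψ) (hs : HasCompactSupport ψ) (g : C(K, ℝ))
    (hg : ∀ x : K, g x = ∫ z, Q (x - z) * ψ z) :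
    ∫ z, ℓ (sh K Q z) * ψ z = ℓ g := by
  set F : E n → C(K, ℝ) := fun z => ψ z • sh K Q z with hF
  have hFc : Continuous F := hψ.smul (sh K Q).continuous
  have hFs : HasCompactSupport F := hs.smul_right
  have hFi : Integrable F := hFc.integrable_of_hasCompactSupport hFs
  have h1 : ∫ z, ℓ (F z) = ℓ (∫ z, F z) := ℓ.integral_comp_comm hFi
  have h2 : ∫ z, F z = g := by
    ext x
    rw [hg x]
    have h3 := (ContinuousMap.evalCLM ℝ x : C(K, ℝ) →L[ℝ] ℝ).integral_comp_comm hFi
    have h4 : (∫ z, F z) x = (ContinuousMap.evalCLM ℝ x : C(K, ℝ) →L[ℝ] ℝ) (∫ z, F z) := rfl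
    rw [h4, ← h3]
    congr 1
    ext z
    change ψ z * Q (x - z) = _
    ring
  rw [← h2, ← h1]
  congr 1
  ext z
  rw [hF]
  simp [mul_comm]

/-- smoothing kernels -/
structure IsKer (κ : E n → ℝ) (τ : ℝ) : Prop where
  smooth : ContDiff ℝ ∞ κ
  cs : HasCompactSupport κ
  even : ∀ x, κ (-x) = κ x
  nonneg : ∀ x, 0 ≤ κ x
  supp : tsupport κ ⊆ closedBall 0 τ
  mass : ∫ x, κ x = 1

theorem IsKer.zero {κ : E n → ℝ} {τ : ℝ} (h : IsKer κ τ) {x : E n} (hx : τ < ‖x‖) : κ x = 0 := by
  apply image_eq_zero_of_notMem_tsupport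
  intro h'
  have := h.supp h'
  rw [mem_closedBall, dist_zero_right] at this
  linarith

/-- the continuous map `P` -/
noncomputable def PC (hn : 3 ≤ n) {κ : E n → ℝ} {τ : ℝ} (h : IsKer κ τ) : C(E n, ℝ) :=
  ⟨cv NN κ, (P_smooth hn h.smooth h.cs).continuous⟩

theorem cv_zero_of {f g : E n → ℝ} {x : E n} (h : ∀ t, f t * g (x - t) = 0) : cv f g x = 0 := by
  rw [cv_apply]; simp [h]

theorem cv_comm (f g : E n → ℝ) : cv f g = cv g f := by
  ext x
  rw [cv_apply, cv_apply, ← integral_sub_left_eq_self _ volume x]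
  congr 1
  ext t
  rw [sub_sub_cancel, mul_comm]

theorem cv_cs {f g : E n → ℝ} (hf : HasCompactSupport f) (hg : HasCompactSupport g) :
    HasCompactSupport (cv f g) := hf.convolution _ hg

theorem ker_li {κ : E n → ℝ} {τ : ℝ} (h : IsKer κ τ) : LocallyIntegrable κ :=
  h.smooth.continuous.locallyIntegrable

/-- **The potential.** -/
theorem exists_w (hn : 3 ≤ n) {c : ℝ} (hc : NewtConst n c) {K : Set (E n)} [CompactSpace K]
    (ℓ : C(K, ℝ) →L[ℝ] ℝ) (hℓ : Ann K ℓ) {κ : E n → ℝ} {τ : ℝ} (h : IsKer κ τ) :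
    ∃ w : E n → ℝ, ContDiff ℝ ∞ w ∧ (∀ y, w y ≠ 0 → ∃ x ∈ K, dist y x ≤ 2 * τ) ∧
      ∀ φ : E n → ℝ, ContDiff ℝ ∞ φ → HasCompactSupport φ → ∀ g : C(K, ℝ),
        (∀ x : K, g x = cv κ (cv κ φ) x) → ∫ y, w y * (Δ φ) y = -c * ℓ g := by
  have hK : IsCompact K := isCompact_iff_compactSpace.2 inferInstance
  set v : E n → ℝ := fun z => ℓ (sh K (PC hn h) z) with hv
  have hvc : Continuous v := ℓ.continuous.comp (sh K (PC hn h)).continuous
  have hv0 : ∀ z, v z ≠ 0 → ∃ x ∈ K, dist z x ≤ τ := by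
    intro z hz
    by_contra hcon
    push Not at hcon
    apply hz
    apply hℓ (fun y => cv NN κ (y - z)) ?_ _ (fun x => rfl)
    refine ⟨{x | x - z ∉ tsupport κ}, ?_, ?_, ?_⟩
    · have : Continuous (fun x : E n => x - z) := by fun_prop
      exact (isClosed_tsupport κ).isOpen_compl.preimage this
    · intro x hx h'
      have h1 := h.supp h'
      rw [mem_closedBall, dist_zero_right] at h1
      have h2 := hcon x hx
      rw [dist_eq_norm, norm_sub_rev] at h2
      linarith
    · intro x hx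
      exact P_harm hn hc h.smooth h.cs hx
  have hvs : HasCompactSupport v := by
    apply HasCompactSupport.intro (hK.cthickening (r := τ))
    intro z hz
    by_contra hne
    obtain ⟨x, hx, hd⟩ := hv0 z hne
    exact hz (mem_cthickening_of_dist_le z x τ K hx hd)
  have hvi : LocallyIntegrable v := hvc.locallyIntegrable
  refine ⟨cv v κ, cv_smooth hvi h.smooth h.cs, ?_, ?_⟩
  · intro y hy
    by_contra hcon
    push Not at hcon
    apply hy
    apply cv_zero_of
    intro t
    by_cases ht : v t = 0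
    · rw [ht, zero_mul]
    · obtain ⟨x, hx, hd⟩ := hv0 t ht
      have h1 := hcon x hx
      have h2 : dist y x ≤ dist y t + dist t x := dist_triangle _ _ _
      have h3 : τ < ‖y - t‖ := by rw [← dist_eq_norm]; linarith
      rw [h.zero h3, mul_zero]
  · intro φ hφ hφs g hg
    have hψc : Continuous (Δ φ) := lap_cont hφ
    have hψs : HasCompactSupport (Δ φ) := lap_cs hφs
    have h1 : ∫ y, cv v κ y * (Δ φ) y = ∫ z, v z * (Δ (cv κ φ)) z := by
      simp_rw [cv_apply v κ, ← integral_mul_const]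
      rw [integral_integral_swap_of_hasCompactSupport]
      · congr 1
        ext t
        rw [lap_cv (ker_li h) hφ hφs, cv_comm, cv_apply, ← integral_const_mul]
        congr 1
        ext y
        have : κ (y - t) = κ (t - y) := by rw [← h.even (y - t), neg_sub]
        rw [this]
        ring
      · have hk := h.smooth.continuous
        simp only [Function.uncurry_def]
        fun_prop
      · apply HasCompactSupport.intro (K := tsupport (Δ φ) ×ˢ tsupport v) (hψs.isCompact.prod hvs.isCompact)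
        rintro ⟨y, t⟩ hyt
        simp only [Function.uncurry_def]
        rw [mem_prod, not_and_or] at hyt
        rcases hyt with h' | h'
        · rw [image_eq_zero_of_notMem_tsupport h', mul_zero]
        · rw [image_eq_zero_of_notMem_tsupport h', zero_mul, zero_mul]
    rw [h1]
    have hsm : ContDiff ℝ ∞ (cv κ φ) := cv_smooth (ker_li h) hφ hφs
    have hcs : HasCompactSupport (cv κ φ) := cv_cs h.cs hφs
    have h2 := int_sh K ℓ (PC hn h) (ψ := Δ (cv κ φ)) (lap_cont hsm) (lap_cs hcs) ((-c) • g) (by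
      intro x
      change -c * g x = ∫ z, cv NN κ (x - z) * _
      rw [hg x, P_pair hn hc h.smooth h.cs h.even hsm hcs])
    rw [hv, h2]
    simp

end Pool.Agent.W797.Har
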