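import Pool.Agent.W797.Har.Conv

/-! # Kato inequality and the mass of the Laplacian -/

set_option autoImplicit false

open MeasureTheory Set Filter Topology Metric
open scoped InnerProductSpace ContDiff Laplacian ENNReal Convolution
open Pool.Agent.Helper486.TP

namespace Pool.Agent.W797.Har

variable {n : ℕ}

theorem lap_L1 {w : E n → ℝ} (hw : ContDiff ℝ ∞ w) (hs : HasCompactSupport w) {B : ℝ}
    (hB : ∀ φ : E n → ℝ, ContDiff ℝ ∞ φ → HasCompactSupport φ → (∀ x, |φ x| ≤ 1) →
      |∫ y, w y * (Δ φ) y| ≤ B) : ∫ y, |(Δ w) y| ≤ B := by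
  set G : E n → ℝ := Δ w with hG
  have hGs : ContDiff ℝ ∞ G := lap_smooth hw
  have hGc : HasCompactSupport G := lap_cs hs
  set S := tsupport G with hS
  have hScomp : IsCompact S := hGc
  have hvol : (volume : Measure (E n)) S < ⊤ := hScomp.measure_lt_top
  set V := (volume : Measure (E n)).real S with hV
  have hV0 : 0 ≤ V := measureReal_nonneg
  have hint : Integrable G := hGs.continuous.integrable_of_hasCompactSupport hGc
  have key : ∀ δ : ℝ, 0 < δ → ∫ y, |G y| ≤ B + δ * V := by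
    intro δ hδ
    set φ : E n → ℝ := fun x => G x / Real.sqrt (G x ^ 2 + δ ^ 2) with hφ
    have hpos : ∀ x, 0 < G x ^ 2 + δ ^ 2 := fun x => by positivity
    have hspos : ∀ x, 0 < Real.sqrt (G x ^ 2 + δ ^ 2) := fun x => Real.sqrt_pos.2 (hpos x)
    have hφsm : ContDiff ℝ ∞ φ := by
      apply hGs.div
      · exact ((hGs.pow 2).add contDiff_const).sqrt (fun x => (hpos x).ne')
      · exact fun x => (hspos x).ne'
    have hφc : HasCompactSupport φ := by
      apply HasCompactSupport.intro hGc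
      intro x hx
      simp only [hφ]
      rw [image_eq_zero_of_notMem_tsupport hx, zero_div]
    have hsq : ∀ x, |G x| ≤ Real.sqrt (G x ^ 2 + δ ^ 2) := by
      intro x
      rw [← Real.sqrt_sq_eq_abs]
      apply Real.sqrt_le_sqrt
      nlinarith [sq_nonneg δ]
    have hφ1 : ∀ x, |φ x| ≤ 1 := by
      intro x
      rw [hφ]
      simp only
      rw [abs_div, abs_of_pos (hspos x), div_le_one (hspos x)]
      exact hsq x
    have h1 := hB φ hφsm hφc hφ1
    rw [green2 hw hφsm hφc] at h1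
    have h2 : ∀ x, |G x| ≤ G x * φ x + S.indicator (fun _ => δ) x := by
      intro x
      by_cases hx : x ∈ S
      · rw [indicator_of_mem hx]
        have hs2 : Real.sqrt (G x ^ 2 + δ ^ 2) ≤ |G x| + δ := by
          rw [Real.sqrt_le_left (by positivity)]
          have := sq_abs (G x)
          nlinarith [abs_nonneg (G x)]
        have h3 : G x * φ x = |G x| ^ 2 / Real.sqrt (G x ^ 2 + δ ^ 2) := by
          simp only [hφ]; rw [sq_abs]; ring
        rw [h3]
        have h4 : |G x| - δ ≤ |G x| ^ 2 / Real.sqrt (G x ^ 2 + δ ^ 2) := by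
          rw [le_div_iff₀ (hspos x)]
          by_cases h5 : |G x| ≤ δ
          · have : (|G x| - δ) * Real.sqrt (G x ^ 2 + δ ^ 2) ≤ 0 :=
              mul_nonpos_of_nonpos_of_nonneg (by linarith) (hspos x).le
            nlinarith [sq_nonneg (|G x|)]
          · push Not at h5
            calc (|G x| - δ) * Real.sqrt (G x ^ 2 + δ ^ 2) ≤ (|G x| - δ) * (|G x| + δ) := by
                  apply mul_le_mul_of_nonneg_left hs2; linarith
              _ ≤ |G x| ^ 2 := by nlinarith [sq_nonneg δ]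
        linarith
      · rw [indicator_of_notMem hx, image_eq_zero_of_notMem_tsupport hx]
        simp
    have hi1 : Integrable (fun x => G x * φ x) :=
      (hGs.continuous.mul hφsm.continuous).integrable_of_hasCompactSupport hGc.mul_right
    have hi2 : Integrable (S.indicator (fun _ => δ) : E n → ℝ) := by
      rw [integrable_indicator_iff hScomp.measurableSet]
      exact integrableOn_const hvol.ne
    calc ∫ y, |G y| ≤ ∫ y, (G y * φ y + S.indicator (fun _ => δ) y) :=
          integral_mono hint.abs (hi1.add hi2) h2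
      _ = (∫ y, G y * φ y) + ∫ y, S.indicator (fun _ => δ) y := integral_add hi1 hi2
      _ ≤ B + δ * V := by
          apply add_le_add
          · exact (le_abs_self _).trans h1
          · rw [integral_indicator hScomp.measurableSet, setIntegral_const, smul_eq_mul, mul_comm]
  apply le_of_forall_pos_le_add
  intro ε hε
  have := key (ε / (V + 1)) (by positivity)
  refine this.trans ?_
  have h3 : ε / (V + 1) * V ≤ ε := by
    rw [div_mul_eq_mul_div, div_le_iff₀ (by positivity)]
    nlinarith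
  linarith

/-- regularised absolute value -/
noncomputable def ra (ε : ℝ) (w : E n → ℝ) : E n → ℝ := fun x => Real.sqrt (w x ^ 2 + ε ^ 2) - ε

theorem ra_smooth {ε : ℝ} (hε : 0 < ε) {w : E n → ℝ} (hw : ContDiff ℝ ∞ w) :
    ContDiff ℝ ∞ (ra ε w) := by
  unfold ra
  exact (((hw.pow 2).add contDiff_const).sqrt (fun x => by positivity)).sub contDiff_const

theorem ra_zero {ε : ℝ} (hε : 0 < ε) {w : E n → ℝ} {x : E n} (h : w x = 0) : ra ε w x = 0 := by
  simp [ra, h, Real.sqrt_sq hε.le]

theorem ra_cs {ε : ℝ} (hε : 0 < ε) {w : E n → ℝ} (hs : HasCompactSupport w) :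
    HasCompactSupport (ra ε w) := by
  apply HasCompactSupport.intro hs
  intro x hx
  exact ra_zero hε (image_eq_zero_of_notMem_tsupport hx)

theorem ra_nonneg {ε : ℝ} (hε : 0 < ε) (w : E n → ℝ) (x : E n) : 0 ≤ ra ε w x := by
  unfold ra
  have : ε ≤ Real.sqrt (w x ^ 2 + ε ^ 2) := by
    apply Real.le_sqrt_of_sq_le
    nlinarith [sq_nonneg (w x)]
  linarith

theorem abs_le_ra (ε : ℝ) (w : E n → ℝ) (x : E n) : |w x| ≤ ra ε w x + ε := by
  unfold ra
  have : |w x| ≤ Real.sqrt (w x ^ 2 + ε ^ 2) := by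
    rw [← Real.sqrt_sq_eq_abs]
    apply Real.sqrt_le_sqrt
    nlinarith [sq_nonneg ε]
  linarith

theorem ra_lap {ε : ℝ} (hε : 0 < ε) {w : E n → ℝ} (hw : ContDiff ℝ ∞ w) (x : E n) :
    -|(Δ w) x| ≤ (Δ (ra ε w)) x := by
  set u : E n → ℝ := fun x => Real.sqrt (w x ^ 2 + ε ^ 2) with hu
  have hpos : ∀ x, 0 < w x ^ 2 + ε ^ 2 := fun x => by positivity
  have hus : ContDiff ℝ ∞ u := ((hw.pow 2).add contDiff_const).sqrt (fun x => (hpos x).ne')
  have hupos : ∀ x, 0 < u x := fun x => Real.sqrt_pos.2 (hpos x)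
  have husq : ∀ x, u x * u x = w x * w x + ε ^ 2 := by
    intro x
    rw [hu]
    simp only
    rw [Real.mul_self_sqrt (hpos x).le]
    ring
  have hD : ∀ (k : E n → ℝ), ContDiff ℝ ∞ k → ∀ z, DifferentiableAt ℝ k z :=
    fun k hk z => hk.differentiable (by simp) z
  have h1 : ∀ v z : E n, u z * fderiv ℝ u z v = w z * fderiv ℝ w z v := by
    intro v z
    have e1 : fderiv ℝ (fun z => u z * u z) z v = 2 * (u z * fderiv ℝ u z v) := by
      rw [fderiv_fun_mul (hD u hus z) (hD u hus z)]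
      simp
      ring
    have e2 : fderiv ℝ (fun z => w z * w z + ε ^ 2) z v = 2 * (w z * fderiv ℝ w z v) := by
      rw [fderiv_add_const, fderiv_fun_mul (hD w hw z) (hD w hw z)]
      simp
      ring
    have e3 : (fun z => u z * u z) = fun z => w z * w z + ε ^ 2 := by ext z; exact husq z
    rw [e3, e2] at e1
    linarith
  have h2 : ∀ v : E n, u x * fderiv ℝ (fun z => fderiv ℝ u z v) x v + (fderiv ℝ u x v) ^ 2
      = w x * fderiv ℝ (fun z => fderiv ℝ w z v) x v + (fderiv ℝ w x v) ^ 2 := by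
    intro v
    have e1 : fderiv ℝ (fun z => u z * fderiv ℝ u z v) x v
        = u x * fderiv ℝ (fun z => fderiv ℝ u z v) x v + (fderiv ℝ u x v) ^ 2 := by
      rw [fderiv_fun_mul (hD u hus x) (hD _ (dsmooth hus v) x)]
      simp
      ring
    have e2 : fderiv ℝ (fun z => w z * fderiv ℝ w z v) x v
        = w x * fderiv ℝ (fun z => fderiv ℝ w z v) x v + (fderiv ℝ w x v) ^ 2 := by
      rw [fderiv_fun_mul (hD w hw x) (hD _ (dsmooth hw v) x)]
      simp
      ring
    have e3 : (fun z => u z * fderiv ℝ u z v) = fun z => w z * fderiv ℝ w z v := by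
      ext z; exact h1 v z
    rw [← e1, ← e2, e3]
  have h3 : ∀ v : E n, (fderiv ℝ u x v) ^ 2 ≤ (fderiv ℝ w x v) ^ 2 := by
    intro v
    have e1 : (u x * u x) * (fderiv ℝ u x v) ^ 2 = (w x * w x) * (fderiv ℝ w x v) ^ 2 := by
      have := h1 v x
      calc (u x * u x) * (fderiv ℝ u x v) ^ 2 = (u x * fderiv ℝ u x v) ^ 2 := by ring
        _ = (w x * fderiv ℝ w x v) ^ 2 := by rw [this]
        _ = _ := by ring
    have e2 : (u x * u x) * (fderiv ℝ u x v) ^ 2 ≤ (u x * u x) * (fderiv ℝ w x v) ^ 2 := by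
      rw [e1]
      apply mul_le_mul_of_nonneg_right _ (sq_nonneg _)
      rw [husq x]; nlinarith [sq_nonneg ε]
    exact le_of_mul_le_mul_left e2 (mul_pos (hupos x) (hupos x))
  have h4 : (Δ (ra ε w)) x = (Δ u) x := by
    rw [nl_lap_eq (ra_smooth hε hw), nl_lap_eq hus]
    apply Finset.sum_congr rfl
    intro i _
    have : (fun z => fderiv ℝ (ra ε w) z (EuclideanSpace.basisFun (Fin n) ℝ i))
        = fun z => fderiv ℝ u z (EuclideanSpace.basisFun (Fin n) ℝ i) := by
      ext z
      have e : ra ε w = fun x => u x - ε := rfl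
      rw [e, fderiv_sub_const]
    rw [this]
  rw [h4]
  have h5 : w x * (Δ w) x ≤ u x * (Δ u) x := by
    rw [nl_lap_eq hw, nl_lap_eq hus, Finset.mul_sum, Finset.mul_sum]
    apply Finset.sum_le_sum
    intro i _
    have e1 := h2 (EuclideanSpace.basisFun (Fin n) ℝ i)
    have e2 := h3 (EuclideanSpace.basisFun (Fin n) ℝ i)
    linarith
  have h6 : |w x| ≤ u x := by
    rw [hu]
    simp only
    rw [← Real.sqrt_sq_eq_abs]
    apply Real.sqrt_le_sqrt
    nlinarith [sq_nonneg ε]
  have h7 : -(u x * |(Δ w) x|) ≤ w x * (Δ w) x := by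
    have e1 : |w x * (Δ w) x| ≤ u x * |(Δ w) x| := by
      rw [abs_mul]; exact mul_le_mul_of_nonneg_right h6 (abs_nonneg _)
    have := neg_abs_le (w x * (Δ w) x)
    linarith
  have h8 : u x * (-|(Δ w) x|) ≤ u x * (Δ u) x := by linarith
  exact le_of_mul_le_mul_left h8 (hupos x)

theorem int_lap_zero {h : E n → ℝ} (hh : ContDiff ℝ ∞ h) (hs : HasCompactSupport h) :
    ∫ y, (Δ h) y = 0 := by
  have h1 := green2 (u := fun _ : E n => (1 : ℝ)) contDiff_const hh hs
  have h2 : (Δ (fun _ : E n => (1 : ℝ))) = fun _ => 0 := by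
    ext x
    rw [nl_lap_eq contDiff_const]
    simp
  rw [h2] at h1
  simpa using h1

theorem ra_mass {ε : ℝ} (hε : 0 < ε) {w : E n → ℝ} (hw : ContDiff ℝ ∞ w)
    (hs : HasCompactSupport w) : ∫ y, |(Δ (ra ε w)) y| ≤ 2 * ∫ y, |(Δ w) y| := by
  have hrs := ra_smooth hε hw
  have hrc := ra_cs hε hs
  have hi1 : Integrable (Δ (ra ε w)) :=
    (lap_cont hrs).integrable_of_hasCompactSupport (lap_cs hrc)
  have hi2 : Integrable (Δ w) := (lap_cont hw).integrable_of_hasCompactSupport (lap_cs hs)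
  have h1 : ∀ y, |(Δ (ra ε w)) y| ≤ (Δ (ra ε w)) y + 2 * |(Δ w) y| := by
    intro y
    have := ra_lap hε hw y
    rcases le_total 0 ((Δ (ra ε w)) y) with h | h
    · rw [abs_of_nonneg h]
      have := abs_nonneg ((Δ w) y)
      linarith
    · rw [abs_of_nonpos h]
      linarith
  have h2 : ∫ y, |(Δ (ra ε w)) y| ≤ ∫ y : E n, (((Δ (ra ε w)) y : ℝ) + (2 : ℝ) * |(Δ w) y|) :=
    integral_mono hi1.abs (hi1.add (hi2.abs.const_mul 2)) h1
  rw [integral_add hi1 (hi2.abs.const_mul 2), int_lap_zero hrs hrc, zero_add,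
    integral_const_mul] at h2
  exact h2

end Pool.Agent.W797.Har
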