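import Pool.Agent.W797.Har.Cap
import Pool.Agent.W797.Har.Kato
import Pool.Agent.W797.Har.Bump

/-! # The estimate for an annihilating functional -/

set_option autoImplicit false

open MeasureTheory Set Filter Topology Metric
open scoped InnerProductSpace ContDiff Laplacian ENNReal Convolution
open Pool.Agent.Helper486.TP

namespace Pool.Agent.W797.Har

variable {n : ℕ}

theorem ker_near {κ g : E n → ℝ} {τ a δ : ℝ} (h : IsKer κ τ) (hg : Continuous g) {x : E n}
    (hx : ∀ t : E n, ‖t‖ ≤ τ → |g (x - t) - a| ≤ δ) : |cv κ g x - a| ≤ δ := by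
  have hi1 : Integrable (fun t => κ t * g (x - t)) :=
    (h.smooth.continuous.mul (hg.comp (continuous_const.sub continuous_id))).integrable_of_hasCompactSupport
      h.cs.mul_right
  have hi2 : Integrable (fun t => κ t * a) :=
    (h.smooth.continuous.integrable_of_hasCompactSupport h.cs).mul_const a
  have hi3 : Integrable (fun t => κ t * δ) :=
    (h.smooth.continuous.integrable_of_hasCompactSupport h.cs).mul_const δ
  have h1 : cv κ g x - a = ∫ t, (κ t * g (x - t) - κ t * a) := by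
    rw [integral_sub hi1 hi2, integral_mul_const, h.mass, one_mul, cv_apply]
  rw [h1, ← Real.norm_eq_abs]
  refine (norm_integral_le_integral_norm _).trans ?_
  calc ∫ t, ‖κ t * g (x - t) - κ t * a‖ ≤ ∫ t, κ t * δ := by
        apply integral_mono (hi1.sub hi2).norm hi3
        intro t
        change ‖κ t * g (x - t) - κ t * a‖ ≤ κ t * δ
        rw [← mul_sub, norm_mul, Real.norm_eq_abs, abs_of_nonneg (h.nonneg t), Real.norm_eq_abs]
        by_cases ht : ‖t‖ ≤ τ
        · exact mul_le_mul_of_nonneg_left (hx t ht) (h.nonneg t)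
        · rw [h.zero (not_le.1 ht), zero_mul, zero_mul]
    _ = δ := by rw [integral_mul_const, h.mass, one_mul]

theorem alg_step {ι : Type} (S : Finset ι) (X D e sn R T : ℝ≥0∞) (H cap I : ι → ℝ≥0∞)
    (hX : X ≤ ∑ k ∈ S, D * ((H k + e * sn) * cap k)) (h2 : ∀ k ∈ S, H k * cap k ≤ R * I k)
    (h3 : ∑ k ∈ S, I k ≤ T) : X ≤ D * (R * T) + e * (D * (sn * ∑ k ∈ S, cap k)) := by
  calc X ≤ ∑ k ∈ S, D * ((H k + e * sn) * cap k) := hX
    _ = D * (∑ k ∈ S, H k * cap k) + e * (D * (sn * ∑ k ∈ S, cap k)) := by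
        rw [← Finset.mul_sum]
        simp_rw [add_mul]
        rw [Finset.sum_add_distrib, mul_add, ← Finset.mul_sum]
        ring
    _ ≤ D * (∑ k ∈ S, R * I k) + e * (D * (sn * ∑ k ∈ S, cap k)) := by
        exact add_le_add_left (mul_le_mul_right (Finset.sum_le_sum h2) _) _
    _ ≤ _ := by
        rw [← Finset.mul_sum]
        gcongr

theorem ell_bound (hn : 3 ≤ n) {c : ℝ} (hc0 : 0 < c) (hc : NewtConst n c) {K : Set (E n)}
    [CompactSpace K] (ℓ : C(K, ℝ) →L[ℝ] ℝ) (hℓ : Ann K ℓ) {φ : E n → ℝ} (hφ : ContDiff ℝ ∞ φ)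
    (hφs : HasCompactSupport φ) {s D : ℝ} (hs : 0 < s)
    (hb : ∀ z, (∃ x ∈ K, dist z x ≤ 1) →
      ENNReal.ofReal |(Δ φ) z| ≤ ENNReal.ofReal D * hcap (closedBall z s \ K))
    {δ : ℝ} (hδ : 0 < δ) :
    ∃ g : C(K, ℝ), (∀ x : K, |g x - φ x| ≤ δ) ∧
      ENNReal.ofReal (c * |ℓ g|) ≤ ENNReal.ofReal D *
        (ENNReal.ofReal (2 * ((n + 1) * s) ^ n / c1 n) *
          (ENNReal.ofReal (c2 n) * c3 n * ENNReal.ofReal (2 * (c * ‖ℓ‖)))) := by
  have hK : IsCompact K := isCompact_iff_compactSpace.2 inferInstance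
  have hc1 := c1_pos hn
  obtain ⟨M, hM⟩ := hK.isBounded.subset_closedBall (0 : E n)
  set S := gridS n s (M + 1) with hS
  set r : ℝ := (n + 1) * s with hr
  have hr0 : 0 < r := by positivity
  have hch : ∀ k : Fin n → ℤ, ∃ (F : Set (E n)) (ν : Measure (E n)), IsCompact F ∧
      F ⊆ closedBall (corner s k) r \ K ∧ Admissible F ν ∧
      hcap (closedBall (corner s k) r \ K) ≤ 2 * ν univ :=
    fun k => hcap_half hr0 sdiff_subset
  choose F ν hFc hFs hν hcp using hch
  -- separation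
  have hFU : IsCompact (⋃ k ∈ S, F k) := S.isCompact_biUnion (fun k _ => hFc k)
  have hdis : Disjoint (⋃ k ∈ S, F k) K := by
    rw [Set.disjoint_left]
    intro x hx hxK
    simp only [mem_iUnion] at hx
    obtain ⟨k, _, hxk⟩ := hx
    exact (hFs k hxk).2 hxK
  obtain ⟨d, hd0, hd⟩ := hdis.exists_cthickenings hFU hK.isClosed
  -- uniform continuity
  have huc : UniformContinuous φ := hφs.uniformContinuous_of_continuous hφ.continuous
  obtain ⟨e, he0, he⟩ := Metric.uniformContinuous_iff.1 huc δ hδ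
  obtain ⟨τ, hτ0, hτ1, hτ2, hτ3⟩ : ∃ τ : ℝ, 0 < τ ∧ 2 * τ ≤ 1 ∧ 2 * τ ≤ d ∧ 2 * τ < e := by
    refine ⟨min (1 / 2) (min (d / 2) (e / 4)), ?_, ?_, ?_, ?_⟩
    · positivity
    · have := min_le_left (1 / 2 : ℝ) (min (d / 2) (e / 4)); linarith
    · have := (min_le_right (1 / 2 : ℝ) (min (d / 2) (e / 4))).trans (min_le_left _ _); linarith
    · have := (min_le_right (1 / 2 : ℝ) (min (d / 2) (e / 4))).trans (min_le_right _ _); linarith
  have hker := bumpS_ker (n := n) hτ0
  set κ := bumpS τ (0 : E n) with hκ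
  obtain ⟨w, hw, hwK, hwφ⟩ := exists_w hn hc ℓ hℓ hker
  have hwcs : HasCompactSupport w := by
    apply HasCompactSupport.intro (hK.cthickening (r := 2 * τ))
    intro z hz
    by_contra hne
    obtain ⟨x, hx, hd⟩ := hwK z hne
    exact hz (mem_cthickening_of_dist_le z x _ K hx hd)
  have hsm1 : ContDiff ℝ ∞ (cv κ φ) := cv_smooth (ker_li hker) hφ hφs
  have hcs1 : HasCompactSupport (cv κ φ) := cv_cs hker.cs hφs
  have hsm2 : ContDiff ℝ ∞ (cv κ (cv κ φ)) := cv_smooth (ker_li hker) hsm1 hcs1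
  set g : C(K, ℝ) := ⟨fun x => cv κ (cv κ φ) x, hsm2.continuous.comp continuous_subtype_val⟩ with hg
  have hwg : ∫ y, w y * (Δ φ) y = -c * ℓ g := hwφ φ hφ hφs g (fun x => rfl)
  refine ⟨g, ?_, ?_⟩
  · intro x
    apply ker_near hker hsm1.continuous
    intro t ht
    apply ker_near hker hφ.continuous
    intro t' ht'
    have h1 : dist ((x : E n) - t - t') x < e := by
      rw [dist_eq_norm]
      have h2 : (x : E n) - t - t' - x = -(t + t') := by abel
      rw [h2, norm_neg]
      have := norm_add_le t t'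
      linarith
    have h3 := he h1
    rw [Real.dist_eq] at h3
    exact h3.le
  -- the zero set of `w`
  have hwF : ∀ k ∈ S, ∀ x ∈ F k, w x = 0 := by
    intro k hk x hx
    by_contra hne
    obtain ⟨y, hy, hxy⟩ := hwK x hne
    have h1 : x ∈ cthickening d K := mem_cthickening_of_dist_le x y _ K hy (hxy.trans hτ2)
    have h2 : x ∈ cthickening d (⋃ k ∈ S, F k) :=
      self_subset_cthickening _ (mem_biUnion hk hx)
    exact (Set.disjoint_left.1 hd) h2 h1
  have hwS : ∀ y, w y ≠ 0 → idx s y ∈ S := by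
    intro y hy
    apply mem_gridS hs
    obtain ⟨x, hx, hxy⟩ := hwK y hy
    have h1 := mem_closedBall.1 (hM hx)
    rw [dist_zero_right] at h1
    have h2 : ‖y‖ ≤ ‖y - x‖ + ‖x‖ := by
      have := norm_add_le (y - x) x
      rwa [sub_add_cancel] at this
    rw [← dist_eq_norm] at h2
    linarith
  -- step one
  have hstep1 : ENNReal.ofReal (c * |ℓ g|) ≤
      ∑ k ∈ S, ∫⁻ y in cube s k, ENNReal.ofReal |w y| * ENNReal.ofReal |(Δ φ) y| := by
    have h1 : c * |ℓ g| = |∫ y, w y * (Δ φ) y| := by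
      rw [hwg, abs_mul, abs_neg, abs_of_pos hc0]
    rw [h1, ← Real.norm_eq_abs, ofReal_norm]
    refine (enorm_integral_le_lintegral_enorm _).trans ?_
    have h2 : ∀ y, ‖w y * (Δ φ) y‖ₑ = ENNReal.ofReal |w y| * ENNReal.ofReal |(Δ φ) y| := by
      intro y
      rw [enorm_mul, Real.enorm_eq_ofReal_abs, Real.enorm_eq_ofReal_abs]
    simp_rw [h2]
    apply cube_split S
    intro y hy
    apply hwS
    intro h0
    apply hy
    rw [h0]
    simp
  -- step two
  have hstep2 : ∀ k, ∫⁻ y in cube s k, ENNReal.ofReal |w y| * ENNReal.ofReal |(Δ φ) y|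
      ≤ ENNReal.ofReal D * ((∫⁻ y in cube s k, ENNReal.ofReal |w y|) *
        hcap (closedBall (corner s k) r \ K)) := by
    intro k
    have hwm : Measurable (fun y => ENNReal.ofReal |w y|) :=
      hw.continuous.abs.measurable.ennreal_ofReal
    rw [mul_left_comm, ← lintegral_mul_const _ hwm]
    apply setLIntegral_mono' (cube_meas s k)
    intro y hy
    by_cases h0 : w y = 0
    · rw [h0]; simp
    · gcongr
      obtain ⟨x, hx, hxy⟩ := hwK y h0
      refine (hb y ⟨x, hx, hxy.trans hτ1⟩).trans ?_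
      gcongr
      apply hcap_mono
      apply sdiff_subset_sdiff_left
      intro u hu
      have h1 := mem_closedBall.1 hu
      have h2 := cube_near hs hy
      rw [mem_closedBall]
      have h3 := dist_triangle u y (corner s k)
      have h4 : dist y (corner s k) = ‖y - corner s k‖ := dist_eq_norm _ _
      rw [hr]
      linarith
  -- step three
  set Z : ℝ≥0∞ := ENNReal.ofReal D * (ENNReal.ofReal (s ^ n) *
    ∑ k ∈ S, hcap (closedBall (corner s k) r \ K)) with hZ
  have hZfin : Z ≠ ⊤ := by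
    apply ENNReal.mul_ne_top ENNReal.ofReal_ne_top
    apply ENNReal.mul_ne_top ENNReal.ofReal_ne_top
    rw [ENNReal.sum_ne_top]
    exact fun k _ => hcap_fin hr0 sdiff_subset
  set Y : ℝ≥0∞ := ENNReal.ofReal D *
        (ENNReal.ofReal (2 * r ^ n / c1 n) *
          (ENNReal.ofReal (c2 n) * c3 n * ENNReal.ofReal (2 * (c * ‖ℓ‖)))) with hY
  have hlapw : ∫ y, |(Δ w) y| ≤ c * ‖ℓ‖ := by
    apply lap_L1 hw hwcs
    intro ψ hψ hψs hψ1
    have hp1 : ContDiff ℝ ∞ (cv κ ψ) := cv_smooth (ker_li hker) hψ hψs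
    have hp2 : HasCompactSupport (cv κ ψ) := cv_cs hker.cs hψs
    have hp3 : ContDiff ℝ ∞ (cv κ (cv κ ψ)) := cv_smooth (ker_li hker) hp1 hp2
    set gg : C(K, ℝ) := ⟨fun x => cv κ (cv κ ψ) x, hp3.continuous.comp continuous_subtype_val⟩ with hgg
    rw [hwφ ψ hψ hψs gg (fun x => rfl), abs_mul, abs_neg, abs_of_pos hc0]
    have h1 : ‖gg‖ ≤ 1 := by
      rw [ContinuousMap.norm_le _ zero_le_one]
      intro x
      have h2 := ker_near (a := 0) (δ := 1) (x := (x : E n)) hker hp1.continuous (by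
        intro t _
        apply ker_near (a := 0) (δ := 1) hker hψ.continuous
        intro t' _
        rw [sub_zero]
        exact hψ1 _)
      rwa [sub_zero] at h2
    have h2 : |ℓ gg| ≤ ‖ℓ‖ := by
      have h3 := ℓ.le_opNorm gg
      rw [Real.norm_eq_abs] at h3
      refine h3.trans ?_
      calc ‖ℓ‖ * ‖gg‖ ≤ ‖ℓ‖ * 1 := by gcongr
        _ = ‖ℓ‖ := mul_one _
    gcongr
  have hmain : ∀ ε : ℝ, 0 < ε → ENNReal.ofReal (c * |ℓ g|) ≤ Y + ENNReal.ofReal ε * Z := by
    intro ε hε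
    set h := ra ε w with hh
    have hhs : ContDiff ℝ ∞ h := ra_smooth hε hw
    have hhc : HasCompactSupport h := ra_cs hε hwcs
    have hh0 : ∀ x, 0 ≤ h x := ra_nonneg hε w
    have h1 : ∀ k, ∫⁻ y in cube s k, ENNReal.ofReal |w y| ≤
        ENNReal.ofReal (∫ y in cube s k, h y) + ENNReal.ofReal ε * ENNReal.ofReal (s ^ n) := by
      intro k
      have hhi : IntegrableOn h (cube s k) :=
        (hhs.continuous.integrable_of_hasCompactSupport hhc).integrableOn
      rw [ofReal_integral_eq_lintegral_ofReal hhi (ae_of_all _ hh0), ← cube_vol hs k,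
        ← setLIntegral_const, ← lintegral_add_right _ measurable_const]
      apply lintegral_mono
      intro y
      simp only
      rw [← ENNReal.ofReal_add (hh0 y) hε.le]
      exact ENNReal.ofReal_le_ofReal (abs_le_ra ε w y)
    have h2 : ∀ k ∈ S, ENNReal.ofReal (∫ y in cube s k, h y) *
        hcap (closedBall (corner s k) r \ K) ≤ ENNReal.ofReal (2 * r ^ n / c1 n) *
        ∫⁻ y, ENNReal.ofReal (c2 n / (1 + ‖y - corner s k‖ / r) ^ (n + 2))
          * ENNReal.ofReal |(Δ h) y| := by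
      intro k hk
      exact one_cube hn hc hhs hhc hh0 hs k ((hFs k).trans sdiff_subset)
        (fun x hx => ra_zero hε (hwF k hk x hx)) (hν k) (hcp k)
    have h3 := sum_cubes hs S hhs hhc
    have h4 : ∫ y, |(Δ h) y| ≤ 2 * (c * ‖ℓ‖) := by
      have := ra_mass hε hw hwcs
      linarith
    have h5 : ENNReal.ofReal (c * |ℓ g|) ≤ ∑ k ∈ S, ENNReal.ofReal D *
        ((ENNReal.ofReal (∫ y in cube s k, h y) +
          ENNReal.ofReal ε * ENNReal.ofReal (s ^ n)) * hcap (closedBall (corner s k) r \ K)) := by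
      refine hstep1.trans (Finset.sum_le_sum (fun k _ => (hstep2 k).trans ?_))
      exact mul_le_mul_right (mul_le_mul_left (h1 k) _) _
    have h6 : ∑ k ∈ S, ∫⁻ y, ENNReal.ofReal (c2 n / (1 + ‖y - corner s k‖ / r) ^ (n + 2))
          * ENNReal.ofReal |(Δ h) y| ≤ ENNReal.ofReal (c2 n) * c3 n * ENNReal.ofReal (2 * (c * ‖ℓ‖)) :=
      h3.trans (mul_le_mul_right (ENNReal.ofReal_le_ofReal h4) _)
    exact alg_step S _ _ _ _ _ _ _ _ _ h5 h2 h6
  have hlim : Tendsto (fun ε : ℝ => Y + ENNReal.ofReal ε * Z) (𝓝[>] 0) (𝓝 (Y + 0 * Z)) := by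
    apply Tendsto.const_add
    apply ENNReal.Tendsto.mul_const
    · have h1 := (ENNReal.continuous_ofReal.tendsto (0 : ℝ)).mono_left
        (nhdsWithin_le_nhds (s := Ioi 0))
      rwa [ENNReal.ofReal_zero] at h1
    · exact Or.inr hZfin
  rw [zero_mul, add_zero] at hlim
  apply ge_of_tendsto hlim
  filter_upwards [self_mem_nhdsWithin] with ε hε
  exact hmain ε hε

end Pool.Agent.W797.Har
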