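import Pool.Agent.W797.Har.Newt
import Pool.Agent.W797.Har.Defs

/-! # A second difference of Newtonian kernels -/

set_option autoImplicit false

open MeasureTheory Set Filter Topology Metric
open scoped InnerProductSpace ContDiff Laplacian ENNReal Convolution
open Pool.Agent.Helper486.TP

namespace Pool.Agent.W797.Har

variable {n : ℕ}

theorem tangent_rpow {x e r : ℝ} (hx : 0 < x) (he : 0 ≤ e) (hr : 0 ≤ r) :
    x ^ (-r) - (x + e) ^ (-r) ≤ r * e * x ^ (-r - 1) := by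
  have h1 : x + e = x * (1 + e / x) := by field_simp
  have h2 : 0 < 1 + e / x := by positivity
  have h3 : (1 : ℝ) - r * (e / x) ≤ (1 + e / x) ^ (-r) := by
    rw [Real.rpow_def_of_pos h2]
    have h4 : Real.log (1 + e / x) ≤ e / x := by
      have := Real.log_le_sub_one_of_pos h2
      linarith
    have h5 : Real.log (1 + e / x) * (-r) + 1 ≤ Real.exp (Real.log (1 + e / x) * (-r)) :=
      Real.add_one_le_exp _
    nlinarith
  rw [h1, Real.mul_rpow hx.le h2.le, Real.rpow_sub_one hx.ne']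
  have h6 : 0 < x ^ (-r) := Real.rpow_pos_of_pos hx _
  have h7 : x ^ (-r) * (1 - r * (e / x)) ≤ x ^ (-r) * (1 + e / x) ^ (-r) :=
    mul_le_mul_of_nonneg_left h3 h6.le
  have h8 : r * e * (x ^ (-r) / x) = x ^ (-r) * (r * (e / x)) := by ring
  rw [h8]
  nlinarith

/-- second difference estimate -/
theorem second_diff {s e p : ℝ} (hs : 0 < s) (he : 0 < e) (hp : 0 < p) :
    0 ≤ s ^ (-p) - 2 * (s + e) ^ (-p) + (s + 2 * e) ^ (-p) ∧
    s ^ (-p) - 2 * (s + e) ^ (-p) + (s + 2 * e) ^ (-p) ≤ p * (p + 1) * e ^ 2 * s ^ (-p - 2) := by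
  set χ : ℝ → ℝ := fun t => (s + t + e) ^ (-p) - (s + t) ^ (-p) with hχ
  have hd : ∀ x ∈ Icc (0 : ℝ) e, HasDerivAt χ (-p * (s + x + e) ^ (-p - 1) - -p * (s + x) ^ (-p - 1)) x := by
    intro x hx
    have h1 : 0 < s + x + e := by have := hx.1; linarith
    have h2 : 0 < s + x := by have := hx.1; linarith
    have e1 : HasDerivAt (fun t : ℝ => s + t + e) 1 x := by
      simpa using ((hasDerivAt_id x).const_add s).add_const e
    have e2 : HasDerivAt (fun t : ℝ => s + t) 1 x := by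
      simpa using (hasDerivAt_id x).const_add s
    have e3 := e1.rpow_const (p := -p) (Or.inl h1.ne')
    have e4 := e2.rpow_const (p := -p) (Or.inl h2.ne')
    have e5 := e3.sub e4
    refine e5.congr_deriv ?_
    ring
  obtain ⟨ξ, hξ, h⟩ := exists_hasDerivAt_eq_slope χ _ he
    (fun x hx => (hd x hx).continuousAt.continuousWithinAt)
    (fun x hx => hd x (Ioo_subset_Icc_self hx))
  have hval : χ e - χ 0 = s ^ (-p) - 2 * (s + e) ^ (-p) + (s + 2 * e) ^ (-p) := by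
    rw [hχ]
    simp only
    have : s + e + e = s + 2 * e := by ring
    rw [this, add_zero]
    ring
  rw [sub_zero, hval] at h
  have h1 : s ^ (-p) - 2 * (s + e) ^ (-p) + (s + 2 * e) ^ (-p)
      = e * (p * ((s + ξ) ^ (-(p + 1)) - (s + ξ + e) ^ (-(p + 1)))) := by
    have e1 : (-p - 1 : ℝ) = -(p + 1) := by ring
    rw [e1] at h
    rw [eq_div_iff he.ne'] at h
    rw [← h]
    ring
  have hsξ : 0 < s + ξ := by have := hξ.1; linarith
  have h2 : 0 ≤ (s + ξ) ^ (-(p + 1)) - (s + ξ + e) ^ (-(p + 1)) := by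
    rw [sub_nonneg]
    apply Real.rpow_le_rpow_of_nonpos hsξ (by linarith) (by linarith)
  have h3 := tangent_rpow hsξ he.le (r := p + 1) (by linarith)
  have h4 : (s + ξ) ^ (-(p + 1) - 1) ≤ s ^ (-p - 2) := by
    have e1 : (-(p + 1) - 1 : ℝ) = -p - 2 := by ring
    rw [e1]
    apply Real.rpow_le_rpow_of_nonpos hs (by have := hξ.1; linarith) (by linarith)
  rw [h1]
  refine ⟨by positivity, ?_⟩
  calc e * (p * ((s + ξ) ^ (-(p + 1)) - (s + ξ + e) ^ (-(p + 1))))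
      ≤ e * (p * ((p + 1) * e * (s + ξ) ^ (-(p + 1) - 1))) := by gcongr
    _ ≤ e * (p * ((p + 1) * e * s ^ (-p - 2))) := by gcongr
    _ = _ := by ring

/-- the kernel -/
noncomputable def gk (R : ℝ) (z y : E n) : ℝ :=
  (newton z y).toReal - 2 * fe R z y + fe (Real.sqrt 2 * R) z y

theorem gk_eq (hn : 3 ≤ n) {R : ℝ} {z y : E n} (h : y ≠ z) :
    gk R z y = (‖y - z‖ ^ 2) ^ (-(((n : ℝ) - 2) / 2)) - 2 * (‖y - z‖ ^ 2 + R ^ 2) ^ (-(((n : ℝ) - 2) / 2))
      + (‖y - z‖ ^ 2 + 2 * R ^ 2) ^ (-(((n : ℝ) - 2) / 2)) := by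
  have hp : 0 < ‖y - z‖ := norm_pos_iff.2 (sub_ne_zero.2 h)
  have h1 : (newton z y).toReal = (‖y - z‖ ^ 2) ^ (-(((n : ℝ) - 2) / 2)) := by
    rw [newton_toReal hn z y h, ← Real.rpow_natCast ‖y - z‖ 2, ← Real.rpow_mul hp.le]
    congr 1
    push_cast
    ring
  have h2 : (2 - (n : ℝ)) / 2 = -(((n : ℝ) - 2) / 2) := by ring
  unfold gk fe
  rw [h1, h2, mul_pow, Real.sq_sqrt (by norm_num)]

theorem gk_nonneg (hn : 3 ≤ n) {R : ℝ} (hR : 0 < R) {z y : E n} (h : y ≠ z) : 0 ≤ gk R z y := by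
  have hp : 0 < ‖y - z‖ := norm_pos_iff.2 (sub_ne_zero.2 h)
  have hn' : (3 : ℝ) ≤ n := by exact_mod_cast hn
  rw [gk_eq hn h]
  exact (second_diff (by positivity) (by positivity) (by linarith)).1

theorem gk_decay (hn : 3 ≤ n) {R : ℝ} (hR : 0 < R) {z y : E n} (h : y ≠ z) :
    gk R z y ≤ (n : ℝ) ^ 2 * R ^ 4 / ‖y - z‖ ^ (n + 2) := by
  have hp : 0 < ‖y - z‖ := norm_pos_iff.2 (sub_ne_zero.2 h)
  have hn' : (3 : ℝ) ≤ n := by exact_mod_cast hn
  rw [gk_eq hn h]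
  refine ((second_diff (s := ‖y - z‖ ^ 2) (e := R ^ 2) (p := ((n : ℝ) - 2) / 2) (by positivity)
    (by positivity) (by linarith)).2).trans ?_
  have h1 : (‖y - z‖ ^ 2) ^ (-(((n : ℝ) - 2) / 2) - 2) = (‖y - z‖ ^ (n + 2))⁻¹ := by
    rw [← Real.rpow_natCast ‖y - z‖ 2, ← Real.rpow_mul hp.le, ← Real.rpow_natCast ‖y - z‖ (n + 2),
      ← Real.rpow_neg hp.le]
    congr 1
    push_cast
    ring
  rw [h1, div_eq_mul_inv, ← pow_mul]
  have h2 : 0 < (‖y - z‖ ^ (n + 2))⁻¹ := by positivity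
  apply mul_le_mul_of_nonneg_right _ h2.le
  have h3 : ((n : ℝ) - 2) / 2 * (((n : ℝ) - 2) / 2 + 1) ≤ (n : ℝ) ^ 2 := by nlinarith
  have h4 : (0 : ℝ) ≤ R ^ (2 * 2) := by positivity
  calc _ ≤ (n : ℝ) ^ 2 * R ^ (2 * 2) := mul_le_mul_of_nonneg_right h3 h4
    _ = _ := by norm_num

theorem ofReal_gk_le (hn : 3 ≤ n) {R : ℝ} (hR : 0 < R) (z y : E n) :
    ENNReal.ofReal (gk R z y) ≤ newton z y := by
  by_cases h : y = z
  · have : newton z y = ⊤ := by
      rw [newton, h, sub_self, norm_zero, ENNReal.ofReal_zero, zero_pow (by omega), ENNReal.inv_zero]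
    rw [this]; exact le_top
  · have hp : 0 < ‖y - z‖ := norm_pos_iff.2 (sub_ne_zero.2 h)
    have hn' : (3 : ℝ) ≤ n := by exact_mod_cast hn
    have h1 : fe (Real.sqrt 2 * R) z y ≤ fe R z y := by
      unfold fe
      apply Real.rpow_le_rpow_of_nonpos (by positivity)
      · rw [mul_pow, Real.sq_sqrt (by norm_num)]
        nlinarith [sq_nonneg R]
      · linarith
    have h2 : 0 ≤ fe R z y := by unfold fe; positivity
    have h3 : gk R z y ≤ (newton z y).toReal := by unfold gk; linarith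
    have h4 : newton z y ≠ ⊤ := by
      rw [newton, Ne, ENNReal.inv_eq_top]
      apply pow_ne_zero
      rw [Ne, ENNReal.ofReal_eq_zero, not_le, norm_sub_rev]
      exact hp
    calc ENNReal.ofReal (gk R z y) ≤ ENNReal.ofReal (newton z y).toReal := ENNReal.ofReal_le_ofReal h3
      _ = newton z y := ENNReal.ofReal_toReal h4

/-- the averaging kernel -/
noncomputable def bk (R : ℝ) (z y : E n) : ℝ :=
  2 * ((n : ℝ) * (n - 2)) * (R ^ 2 * ((‖y - z‖ ^ 2 + R ^ 2) ^ (-((n : ℝ) + 2) / 2)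
    - (‖y - z‖ ^ 2 + 2 * R ^ 2) ^ (-((n : ℝ) + 2) / 2)))

theorem bk_cont {R : ℝ} (hR : 0 < R) (z : E n) : Continuous (fun y => bk R z y) := by
  unfold bk
  have h1 : ∀ a : ℝ, 0 < a → Continuous (fun y : E n => (‖y - z‖ ^ 2 + a) ^ (-((n : ℝ) + 2) / 2)) := by
    intro a ha
    apply Continuous.rpow_const (by fun_prop)
    intro x
    left
    positivity
  have h2 := h1 (R ^ 2) (by positivity)
  have h3 := h1 (2 * R ^ 2) (by positivity)
  fun_prop

theorem gk_rep (hn : 3 ≤ n) {c : ℝ} (hc : NewtConst n c) {R : ℝ} (hR : 0 < R) {h : E n → ℝ}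
    (hh : ContDiff ℝ ∞ h) (hs : HasCompactSupport h) (z : E n) :
    ∫ y, gk R z y * (Δ h) y = -c * h z + ∫ y, bk R z y * h y := by
  have hR2 : 0 < Real.sqrt 2 * R := by positivity
  have g1 := green hR hh hs z
  have g2 := green hR2 hh hs z
  have hLc := lap_cont hh
  have hLs : HasCompactSupport (Δ h) := lap_hasCompactSupport hs
  have hfi : ∀ ε : ℝ, 0 < ε → Integrable (fun y => fe ε z y * (Δ h) y) := fun ε hε =>
    ((fe_contDiff hε z).continuous.mul hLc).integrable_of_hasCompactSupport hLs.mul_left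
  have hni : Integrable (fun y => (newton z y).toReal * (Δ h) y) := by
    obtain ⟨M, hM⟩ : ∃ M, ∀ y, ‖(Δ h) y‖ ≤ M := hLs.exists_bound_of_continuous hLc
    have hK : IntegrableOn (fun y => (newton z y).toReal) (tsupport (Δ h)) := by
      obtain ⟨C, hC, hCa⟩ := newton_locInt hn (tsupport (Δ h)) hLs
      apply integrable_toReal_of_lintegral_ne_top (newton_measurable z).aemeasurable
      exact ((hCa z).trans_lt (lt_top_iff_ne_top.2 hC)).ne
    have h1 : IntegrableOn (fun y => (newton z y).toReal * (Δ h) y) (tsupport (Δ h)) := by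
      apply Integrable.mul_bdd (c := M) hK
      · exact hLc.aestronglyMeasurable
      · exact ae_of_all _ hM
    rw [← integrableOn_iff_integrable_of_support_subset (s := tsupport (Δ h))]
    · exact h1
    · intro y hy
      by_contra h
      apply hy
      simp [image_eq_zero_of_notMem_tsupport h]
  have e1 : ∫ y, gk R z y * (Δ h) y = (∫ y, (newton z y).toReal * (Δ h) y)
      - 2 * (∫ y, fe R z y * (Δ h) y) + ∫ y, fe (Real.sqrt 2 * R) z y * (Δ h) y := by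
    have hsub : Integrable (fun y : E n => (newton z y).toReal * (Δ h) y - 2 * (fe R z y * (Δ h) y)) :=
      hni.sub ((hfi R hR).const_mul 2)
    rw [← integral_const_mul, ← integral_sub hni ((hfi R hR).const_mul 2),
      ← integral_add hsub (hfi _ hR2)]
    congr 1
    ext y
    simp only [gk]
    ring
  rw [e1, hc h hh hs z, g1, g2]
  have hpi : ∀ a b : ℝ, 0 < a → Integrable (fun y : E n => b * (b * (‖y - z‖ ^ 2 + a) ^ (-((n : ℝ) + 2) / 2)) * h y) := by
    intro a b ha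
    refine Continuous.integrable_of_hasCompactSupport ?_ hs.mul_left
    have : Continuous (fun y : E n => (‖y - z‖ ^ 2 + a) ^ (-((n : ℝ) + 2) / 2)) := by
      apply Continuous.rpow_const (by fun_prop)
      intro x
      left
      positivity
    have := hh.continuous
    fun_prop
  have hgi : ∀ ε : ℝ, 0 < ε → Integrable (fun y : E n => -((n : ℝ) * (n - 2)) * (ε ^ 2 * (‖y - z‖ ^ 2 + ε ^ 2) ^ (-((n : ℝ) + 2) / 2)) * h y) := by
    intro ε hε
    refine Continuous.integrable_of_hasCompactSupport ?_ hs.mul_left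
    have : Continuous (fun y : E n => (‖y - z‖ ^ 2 + ε ^ 2) ^ (-((n : ℝ) + 2) / 2)) := by
      apply Continuous.rpow_const (by fun_prop)
      intro x
      left
      positivity
    have := hh.continuous
    fun_prop
  rw [← integral_const_mul]
  rw [sub_add, ← integral_sub ((hgi R hR).const_mul 2) (hgi _ hR2)]
  have e2 : ∀ a b : ℝ, -c * h z - a = -c * h z + -a := fun a b => by ring
  rw [e2 _ 0, ← integral_neg]
  congr 2
  ext y
  simp only [bk]
  rw [mul_pow, Real.sq_sqrt (by norm_num)]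
  ring

/-- constant -/
noncomputable def c1 (n : ℕ) : ℝ :=
  2 * ((n : ℝ) * (n - 2)) * ((1 - (6 / 5 : ℝ) ^ (-((n : ℝ) + 2) / 2)) * (5 : ℝ) ^ (-((n : ℝ) + 2) / 2))

theorem c1_pos (hn : 3 ≤ n) : 0 < c1 n := by
  have hn' : (3 : ℝ) ≤ n := by exact_mod_cast hn
  unfold c1
  have h1 : (6 / 5 : ℝ) ^ (-((n : ℝ) + 2) / 2) < 1 :=
    Real.rpow_lt_one_of_one_lt_of_neg (by norm_num) (by linarith)
  have h2 : (0 : ℝ) < (5 : ℝ) ^ (-((n : ℝ) + 2) / 2) := by positivity
  have h3 : (0 : ℝ) < n * (n - 2) := by apply mul_pos <;> linarith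
  have h4 : 0 < 1 - (6 / 5 : ℝ) ^ (-((n : ℝ) + 2) / 2) := by linarith
  positivity

theorem bk_nonneg (hn : 3 ≤ n) {R : ℝ} (hR : 0 < R) (z y : E n) : 0 ≤ bk R z y := by
  have hn' : (3 : ℝ) ≤ n := by exact_mod_cast hn
  unfold bk
  have h3 : (0 : ℝ) < n * (n - 2) := by apply mul_pos <;> linarith
  have h4 : (‖y - z‖ ^ 2 + 2 * R ^ 2) ^ (-((n : ℝ) + 2) / 2) ≤ (‖y - z‖ ^ 2 + R ^ 2) ^ (-((n : ℝ) + 2) / 2) := by
    apply Real.rpow_le_rpow_of_nonpos (by positivity) (by nlinarith [sq_nonneg R]) (by linarith)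
  have h5 : 0 ≤ (‖y - z‖ ^ 2 + R ^ 2) ^ (-((n : ℝ) + 2) / 2) - (‖y - z‖ ^ 2 + 2 * R ^ 2) ^ (-((n : ℝ) + 2) / 2) := by
    linarith
  positivity

theorem bk_lower (hn : 3 ≤ n) {R : ℝ} (hR : 0 < R) {z y : E n} (h : ‖y - z‖ ≤ 2 * R) :
    c1 n / R ^ n ≤ bk R z y := by
  have hn' : (3 : ℝ) ≤ n := by exact_mod_cast hn
  set q : ℝ := -((n : ℝ) + 2) / 2 with hq
  have hq0 : q < 0 := by rw [hq]; linarith
  set s := ‖y - z‖ ^ 2 with hs
  have hs0 : 0 ≤ s := by positivity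
  have hs4 : s ≤ 4 * R ^ 2 := by
    rw [hs]
    have := pow_le_pow_left₀ (norm_nonneg _) h 2
    nlinarith
  have hR2 : 0 < R ^ 2 := by positivity
  have h1 : (s + 2 * R ^ 2) ^ q ≤ (6 / 5 : ℝ) ^ q * (s + R ^ 2) ^ q := by
    rw [← Real.mul_rpow (by norm_num) (by positivity)]
    apply Real.rpow_le_rpow_of_nonpos (by positivity) (by nlinarith) hq0.le
  have h2 : (5 * R ^ 2) ^ q ≤ (s + R ^ 2) ^ q :=
    Real.rpow_le_rpow_of_nonpos (by positivity) (by nlinarith) hq0.le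
  have h3 : (6 / 5 : ℝ) ^ q < 1 := Real.rpow_lt_one_of_one_lt_of_neg (by norm_num) hq0
  have h4 : (1 - (6 / 5 : ℝ) ^ q) * (5 * R ^ 2) ^ q ≤ (s + R ^ 2) ^ q - (s + 2 * R ^ 2) ^ q := by
    have : (1 - (6 / 5 : ℝ) ^ q) * (5 * R ^ 2) ^ q ≤ (1 - (6 / 5 : ℝ) ^ q) * (s + R ^ 2) ^ q :=
      mul_le_mul_of_nonneg_left h2 (by linarith)
    linarith
  have h5 : R ^ 2 * (5 * R ^ 2) ^ q = (5 : ℝ) ^ q / R ^ n := by
    rw [Real.mul_rpow (by norm_num) (by positivity)]
    have : (R ^ 2) ^ q * R ^ 2 = (R ^ n)⁻¹ := by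
      rw [← Real.rpow_natCast R 2, ← Real.rpow_mul hR.le, ← Real.rpow_add hR, ← Real.rpow_natCast R n,
        ← Real.rpow_neg hR.le]
      congr 1
      rw [hq]
      push_cast
      ring
    calc R ^ 2 * ((5 : ℝ) ^ q * (R ^ 2) ^ q) = (5 : ℝ) ^ q * ((R ^ 2) ^ q * R ^ 2) := by ring
      _ = _ := by rw [this]; ring
  have h6 : (0 : ℝ) ≤ 2 * ((n : ℝ) * (n - 2)) := by
    have : (0 : ℝ) < n * (n - 2) := by apply mul_pos <;> linarith
    linarith
  calc c1 n / R ^ n = 2 * ((n : ℝ) * (n - 2)) * (R ^ 2 * ((1 - (6 / 5 : ℝ) ^ q) * (5 * R ^ 2) ^ q)) := by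
        have : R ^ 2 * ((1 - (6 / 5 : ℝ) ^ q) * (5 * R ^ 2) ^ q)
            = (1 - (6 / 5 : ℝ) ^ q) * (R ^ 2 * (5 * R ^ 2) ^ q) := by ring
        rw [this, h5, c1]
        ring
    _ ≤ bk R z y := by
        unfold bk
        apply mul_le_mul_of_nonneg_left _ h6
        apply mul_le_mul_of_nonneg_left h4 (by positivity)

end Pool.Agent.W797.Har
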