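import Pool.Agent.W797.Har.Ker

/-! # The capacitary inequality for one ball -/

set_option autoImplicit false

open MeasureTheory Set Filter Topology Metric
open scoped InnerProductSpace ContDiff Laplacian ENNReal Convolution
open Pool.Agent.Helper486.TP

namespace Pool.Agent.W797.Har

variable {n : ℕ}

theorem kern_eq (x y : E n) : kern x y = newton x y := rfl

theorem newton_symm (x y : E n) : newton x y = newton y x := by
  rw [newton, newton, norm_sub_rev]

theorem newton_lower {R : ℝ} {x y : E n} (h : ‖x - y‖ ≤ R) :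
    (ENNReal.ofReal R ^ (n - 2))⁻¹ ≤ newton x y := by
  rw [newton, ENNReal.inv_le_inv]
  gcongr

theorem mass_bound {F : Set (E n)} {b : E n} {r : ℝ} (hr : 0 < r)
    (hF : F ⊆ closedBall b r) {ν : Measure (E n)} (hν : Admissible F ν) :
    ν univ ≤ ENNReal.ofReal (2 * r) ^ (n - 2) := by
  by_cases h0 : ν univ = 0
  · rw [h0]; exact bot_le
  have hne : F.Nonempty := by
    by_contra h
    rw [not_nonempty_iff_eq_empty] at h
    have := hν.supp
    rw [h, compl_empty] at this
    exact h0 this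
  obtain ⟨z, hz⟩ := hne
  have hae : ∀ᵐ y ∂ν, y ∈ F := by
    rw [ae_iff]; exact hν.supp
  set a : ℝ≥0∞ := ENNReal.ofReal (2 * r) ^ (n - 2) with ha
  have ha0 : a ≠ 0 := pow_ne_zero _ (by rw [Ne, ENNReal.ofReal_eq_zero]; linarith)
  have ha1 : a ≠ ⊤ := ENNReal.pow_ne_top ENNReal.ofReal_ne_top
  have h1 : a⁻¹ * ν univ ≤ 1 := by
    calc a⁻¹ * ν univ = ∫⁻ _, a⁻¹ ∂ν := by rw [lintegral_const]
      _ ≤ ∫⁻ y, kern z y ∂ν := by
          apply lintegral_mono_ae
          filter_upwards [hae] with y hy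
          rw [kern_eq]
          apply newton_lower
          rw [← dist_eq_norm]
          have h2 := mem_closedBall.1 (hF hz)
          have h3 := mem_closedBall.1 (hF hy)
          calc dist z y ≤ dist z b + dist b y := dist_triangle _ _ _
            _ ≤ 2 * r := by rw [dist_comm b y]; linarith
      _ ≤ 1 := hν.pot z
  calc ν univ = a * (a⁻¹ * ν univ) := by
        rw [← mul_assoc, ENNReal.mul_inv_cancel ha0 ha1, one_mul]
    _ ≤ a * 1 := by gcongr
    _ = a := mul_one a

theorem mass_fin {F : Set (E n)} {b : E n} {r : ℝ} (hr : 0 < r)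
    (hF : F ⊆ closedBall b r) {ν : Measure (E n)} (hν : Admissible F ν) :
    IsFiniteMeasure ν :=
  ⟨(mass_bound hr hF hν).trans_lt (lt_top_iff_ne_top.2 (ENNReal.pow_ne_top ENNReal.ofReal_ne_top))⟩

theorem gk_meas (R : ℝ) (hR : 0 < R) : Measurable (fun p : E n × E n => gk R p.1 p.2) := by
  unfold gk
  have h1 : Measurable (fun p : E n × E n => (newton p.1 p.2).toReal) := by
    unfold newton
    exact (((((measurable_fst.sub measurable_snd).norm).ennreal_ofReal).pow_const _).inv).ennreal_toReal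
  have h2 : ∀ ε : ℝ, 0 < ε → Measurable (fun p : E n × E n => fe ε p.1 p.2) := by
    intro ε hε
    unfold fe
    apply Measurable.pow_const
    exact ((measurable_snd.sub measurable_fst).norm.pow_const 2).add_const _
  exact (h1.sub ((h2 R hR).const_mul 2)).add (h2 _ (by positivity))

/-- the potential of `ν` with respect to the truncated kernel -/
noncomputable def gpot (R : ℝ) (ν : Measure (E n)) (y : E n) : ℝ≥0∞ :=
  ∫⁻ z, ENNReal.ofReal (gk R z y) ∂ν

theorem gpot_le_one (hn : 3 ≤ n) {R : ℝ} (hR : 0 < R) {F : Set (E n)} {ν : Measure (E n)}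
    (hν : Admissible F ν) (y : E n) : gpot R ν y ≤ 1 := by
  calc gpot R ν y ≤ ∫⁻ z, newton z y ∂ν := lintegral_mono (fun z => ofReal_gk_le hn hR z y)
    _ = ∫⁻ z, kern y z ∂ν := by
        congr 1; ext z; rw [newton_symm, kern_eq]
    _ ≤ 1 := hν.pot y

theorem gpot_decay (hn : 3 ≤ n) {r : ℝ} (hr : 0 < r) {F : Set (E n)} {b : E n}
    (hF : F ⊆ closedBall b r) {ν : Measure (E n)}
    (hν : Admissible F ν) {y : E n} (hy : 2 * r ≤ ‖y - b‖) :
    gpot r ν y ≤ ENNReal.ofReal ((n : ℝ) ^ 2 * 4 ^ n / (‖y - b‖ / r) ^ (n + 2)) := by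
  have hae : ∀ᵐ z ∂ν, z ∈ F := by
    rw [ae_iff]; exact hν.supp
  have hyb : 0 < ‖y - b‖ := by linarith
  set m : ℝ := (n : ℝ) ^ 2 * r ^ 4 / (‖y - b‖ / 2) ^ (n + 2) with hm
  have hm0 : 0 ≤ m := by positivity
  have h1 : gpot r ν y ≤ ENNReal.ofReal m * ν univ := by
    rw [← lintegral_const]
    apply lintegral_mono_ae
    filter_upwards [hae] with z hz
    apply ENNReal.ofReal_le_ofReal
    have h2 : ‖z - b‖ ≤ r := by
      have := mem_closedBall.1 (hF hz); rwa [dist_eq_norm] at this
    have h3 : ‖y - b‖ / 2 ≤ ‖y - z‖ := by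
      have : ‖y - b‖ ≤ ‖y - z‖ + ‖z - b‖ := by
        have := norm_add_le (y - z) (z - b)
        rwa [sub_add_sub_cancel] at this
      linarith
    have h5 : 0 < ‖y - z‖ := by linarith
    have h4 : y ≠ z := by
      intro h
      rw [h, sub_self, norm_zero] at h5
      exact lt_irrefl _ h5
    refine (gk_decay hn hr h4).trans ?_
    rw [hm]
    gcongr
  refine h1.trans ?_
  have h5 := mass_bound hr hF hν
  calc ENNReal.ofReal m * ν univ ≤ ENNReal.ofReal m * ENNReal.ofReal (2 * r) ^ (n - 2) := by gcongr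
    _ = ENNReal.ofReal (m * (2 * r) ^ (n - 2)) := by
        rw [← ENNReal.ofReal_pow (by positivity), ← ENNReal.ofReal_mul hm0]
    _ ≤ _ := by
        apply ENNReal.ofReal_le_ofReal
        apply le_of_eq
        rw [hm]
        obtain ⟨k, rfl⟩ : ∃ k, n = k + 2 := ⟨n - 2, by omega⟩
        rw [Nat.add_sub_cancel]
        have e1 : ∀ j : ℕ, (‖y - b‖ / 2) ^ j = ‖y - b‖ ^ j / 2 ^ j := fun j => div_pow _ _ _
        have e2 : ∀ j : ℕ, (‖y - b‖ / r) ^ j = ‖y - b‖ ^ j / r ^ j := fun j => div_pow _ _ _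
        rw [e1, e2, mul_pow]
        have e3 : (4 : ℝ) ^ (k + 2) = 2 ^ (k + 2 + 2) * 2 ^ k := by
          rw [← pow_add]
          have : (4 : ℝ) = 2 ^ 2 := by norm_num
          rw [this, ← pow_mul]
          congr 1
          ring
        rw [e3]
        field_simp
        ring

/-- constant -/
noncomputable def c2 (n : ℕ) : ℝ := 3 ^ (n + 2) + (n : ℝ) ^ 2 * 4 ^ n * (3 / 2) ^ (n + 2)

theorem c2_pos (n : ℕ) : 0 < c2 n := by unfold c2; positivity

theorem gpot_bound (hn : 3 ≤ n) {r : ℝ} (hr : 0 < r) {F : Set (E n)} {b : E n}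
    (hF : F ⊆ closedBall b r) {ν : Measure (E n)}
    (hν : Admissible F ν) (y : E n) :
    gpot r ν y ≤ ENNReal.ofReal (c2 n / (1 + ‖y - b‖ / r) ^ (n + 2)) := by
  set t : ℝ := ‖y - b‖ / r with ht
  have ht0 : 0 ≤ t := by positivity
  by_cases h : t < 2
  · refine (gpot_le_one hn hr hν y).trans ?_
    rw [← ENNReal.ofReal_one]
    apply ENNReal.ofReal_le_ofReal
    rw [le_div_iff₀ (by positivity), one_mul]
    calc (1 + t) ^ (n + 2) ≤ 3 ^ (n + 2) := by
          apply pow_le_pow_left₀ (by positivity); linarith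
      _ ≤ c2 n := by unfold c2; have : (0 : ℝ) ≤ (n : ℝ) ^ 2 * 4 ^ n * (3 / 2) ^ (n + 2) := by positivity
                     linarith
  · push Not at h
    have hy : 2 * r ≤ ‖y - b‖ := by
      rw [ht, le_div_iff₀ hr] at h; exact h
    refine (gpot_decay hn hr hF hν hy).trans ?_
    apply ENNReal.ofReal_le_ofReal
    rw [← ht]
    have htp : 0 < t := by linarith
    rw [div_le_div_iff₀ (by positivity) (by positivity)]
    have h1 : (1 + t) ^ (n + 2) ≤ (3 / 2 * t) ^ (n + 2) := by
      apply pow_le_pow_left₀ (by positivity); linarith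
    calc (n : ℝ) ^ 2 * 4 ^ n * (1 + t) ^ (n + 2) ≤ (n : ℝ) ^ 2 * 4 ^ n * (3 / 2 * t) ^ (n + 2) := by gcongr
      _ = (n : ℝ) ^ 2 * 4 ^ n * (3 / 2) ^ (n + 2) * t ^ (n + 2) := by rw [mul_pow]; ring
      _ ≤ c2 n * t ^ (n + 2) := by
          gcongr
          unfold c2
          have : (0 : ℝ) ≤ 3 ^ (n + 2) := by positivity
          linarith

/-- **The one-ball inequality.** -/
theorem M_ineq (hn : 3 ≤ n) {c : ℝ} (hc : NewtConst n c) {h : E n → ℝ}
    (hh : ContDiff ℝ ∞ h) (hs : HasCompactSupport h) (h0 : ∀ x, 0 ≤ h x) {r : ℝ} (hr : 0 < r)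
    {F A : Set (E n)} {b : E n} (hF : F ⊆ closedBall b r) (hA : A ⊆ closedBall b r)
    (hAm : MeasurableSet A)
    (hhF : ∀ x ∈ F, h x = 0) {ν : Measure (E n)} (hν : Admissible F ν) :
    ENNReal.ofReal (c1 n / r ^ n * ∫ y in A, h y) * ν univ
      ≤ ∫⁻ y, gpot r ν y * ENNReal.ofReal |(Δ h) y| := by
  have : IsFiniteMeasure ν := mass_fin hr hF hν
  have : Nonempty (Fin n) := ⟨⟨0, by omega⟩⟩
  have hae : ∀ᵐ z ∂ν, z ∈ F := by
    rw [ae_iff]; exact hν.supp
  have hLc := lap_cont hh
  have hint : Integrable h := hh.continuous.integrable_of_hasCompactSupport hs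
  have key : ∀ z ∈ F, ENNReal.ofReal (c1 n / r ^ n * ∫ y in A, h y)
      ≤ ∫⁻ y, ENNReal.ofReal (gk r z y) * ENNReal.ofReal |(Δ h) y| := by
    intro z hz
    have hrep := gk_rep hn hc hr hh hs z
    rw [hhF z hz, mul_zero, zero_add] at hrep
    have hbi : Integrable (fun y => bk r z y * h y) :=
      ((bk_cont hr z).mul hh.continuous).integrable_of_hasCompactSupport hs.mul_left
    have h1 : c1 n / r ^ n * ∫ y in A, h y ≤ ∫ y, bk r z y * h y := by
      calc c1 n / r ^ n * ∫ y in A, h y = ∫ y in A, c1 n / r ^ n * h y := by rw [integral_const_mul]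
        _ ≤ ∫ y in A, bk r z y * h y := by
            apply setIntegral_mono_on (hint.integrableOn.const_mul _) hbi.integrableOn hAm
            intro y hy
            apply mul_le_mul_of_nonneg_right _ (h0 y)
            apply bk_lower hn hr
            rw [← dist_eq_norm]
            have h2 := mem_closedBall.1 (hF hz)
            have h3 := mem_closedBall.1 (hA hy)
            calc dist y z ≤ dist y b + dist b z := dist_triangle _ _ _
              _ ≤ 2 * r := by rw [dist_comm b z]; linarith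
        _ ≤ ∫ y, bk r z y * h y := by
            apply setIntegral_le_integral hbi
            exact ae_of_all _ (fun y => mul_nonneg (bk_nonneg hn hr z y) (h0 y))
    refine (ENNReal.ofReal_le_ofReal (h1.trans (le_of_eq hrep.symm))).trans ?_
    refine (ENNReal.ofReal_le_ofReal (le_abs_self _)).trans ?_
    rw [← Real.norm_eq_abs, ofReal_norm]
    refine (enorm_integral_le_lintegral_enorm _).trans ?_
    apply lintegral_mono_ae
    have hne : ∀ᵐ y : E n, y ≠ z := by
      rw [ae_iff]; simp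
    filter_upwards [hne] with y hy
    rw [enorm_mul, Real.enorm_eq_ofReal_abs, Real.enorm_eq_ofReal_abs,
      abs_of_nonneg (gk_nonneg hn hr hy)]
  calc ENNReal.ofReal (c1 n / r ^ n * ∫ y in A, h y) * ν univ
      = ∫⁻ _, ENNReal.ofReal (c1 n / r ^ n * ∫ y in A, h y) ∂ν := by rw [lintegral_const]
    _ ≤ ∫⁻ z, (∫⁻ y, ENNReal.ofReal (gk r z y) * ENNReal.ofReal |(Δ h) y|) ∂ν := by
        apply lintegral_mono_ae
        filter_upwards [hae] with z hz
        exact key z hz
    _ = ∫⁻ y, (∫⁻ z, ENNReal.ofReal (gk r z y) * ENNReal.ofReal |(Δ h) y| ∂ν) := by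
        rw [lintegral_lintegral_swap]
        apply Measurable.aemeasurable
        have hm1 : Measurable (fun p : E n × E n => ENNReal.ofReal (gk r p.1 p.2)) :=
          (gk_meas r hr).ennreal_ofReal
        have hm2 : Measurable (fun y => |(Δ h) y|) := hLc.abs.measurable
        have hm3 : Measurable (fun p : E n × E n => ENNReal.ofReal |(Δ h) p.2|) :=
          (hm2.comp measurable_snd).ennreal_ofReal
        exact hm1.mul hm3
    _ = ∫⁻ y, gpot r ν y * ENNReal.ofReal |(Δ h) y| := by
        congr 1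
        ext y
        rw [gpot, lintegral_mul_const]
        exact ((gk_meas r hr).comp (measurable_id.prodMk measurable_const)).ennreal_ofReal
  exact le_rfl

end Pool.Agent.W797.Har
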