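import Pool.Agent.W797.Har.Ell

/-! # The capacity condition implies uniform harmonic approximation -/

set_option autoImplicit false

open MeasureTheory Set Filter Topology Metric
open scoped InnerProductSpace ContDiff Laplacian ENNReal Convolution
open Pool.Agent.Helper486.TP

namespace Pool.Agent.W797.Har

variable {n : ℕ}

theorem lap_trans {g : E n → ℝ} (hg : ContDiff ℝ ∞ g) (z t : E n) :
    (Δ (fun x => g (x - z))) t = (Δ g) (t - z) := by
  have hg2 : ContDiff ℝ ∞ (fun x => g (x - z)) := hg.comp (contDiff_id.sub contDiff_const)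
  rw [nl_lap_eq hg2, nl_lap_eq hg]
  apply Finset.sum_congr rfl
  intro i _
  have h1 : (fun y => fderiv ℝ (fun x => g (x - z)) y (EuclideanSpace.basisFun (Fin n) ℝ i))
      = fun y => (fun u => fderiv ℝ g u (EuclideanSpace.basisFun (Fin n) ℝ i)) (y - z) := by
    ext y
    rw [fderiv_comp_sub]
  rw [h1, fderiv_comp_sub (f := fun u => fderiv ℝ g u (EuclideanSpace.basisFun (Fin n) ℝ i))]

theorem bumpS_trans (s : ℝ) (z : E n) : bumpS s z = fun x => bumpS s (0 : E n) (x - z) := by
  ext x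
  simp [bumpS]

theorem lap_bumpS {s : ℝ} (hs : 0 < s) (z t : E n) :
    (Δ (bumpS s z)) t = (Δ (bumpS s (0 : E n))) (z - t) := by
  rw [bumpS_trans, lap_trans (bumpS_smooth s 0),
    ← lap_even (bumpS_smooth s 0) (bumpS_ker hs).even (t - z), neg_sub]

theorem lap_zero_off {g : E n → ℝ} {t : E n} (ht : t ∉ tsupport g) : (Δ g) t = 0 := by
  have h1 : iteratedFDeriv ℝ 2 g t = 0 :=
    image_eq_zero_of_notMem_tsupport (fun h => ht (tsupport_iteratedFDeriv_subset 2 h))
  rw [lap_eq]
  simp [h1]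

theorem phi_lap {f ft : E n → ℝ} (hft : Continuous ft) {s : ℝ} (hs : 0 < s) {z : E n}
    (hz : ∀ t ∈ closedBall z s, ft t = f t) :
    (Δ (cv ft (bumpS s (0 : E n)))) z = ∫ t, f t * (Δ (bumpS s z)) t := by
  rw [lap_cv hft.locallyIntegrable (bumpS_smooth s 0) (bumpS_cs hs 0), cv_apply]
  congr 1
  ext t
  rw [lap_bumpS hs z t]
  by_cases ht : t ∈ closedBall z s
  · rw [hz t ht]
  · have h1 : (Δ (bumpS s (0 : E n))) (z - t) = 0 := by
      rw [← lap_bumpS hs z t]
      apply lap_zero_off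
      rwa [bumpS_tsupport hs z]
    rw [h1, mul_zero, mul_zero]

theorem phi_approx {ft : E n → ℝ} (hft : Continuous ft) (hfs : HasCompactSupport ft) {δ : ℝ}
    (hδ : 0 < δ) : ∃ s₀ : ℝ, 0 < s₀ ∧ ∀ s, 0 < s → s < s₀ → ∀ x,
      |cv ft (bumpS s (0 : E n)) x - ft x| ≤ δ := by
  have huc : UniformContinuous ft := hfs.uniformContinuous_of_continuous hft
  obtain ⟨e, he0, he⟩ := Metric.uniformContinuous_iff.1 huc δ hδ
  refine ⟨e, he0, fun s hs hse x => ?_⟩
  rw [cv_comm]
  apply ker_near (bumpS_ker hs) hft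
  intro t ht
  have h1 : dist (x - t) x < e := by
    rw [dist_eq_norm, sub_sub_cancel_left, norm_neg]
    linarith
  have h3 := he h1
  rw [Real.dist_eq] at h3
  exact h3.le

/-- restrictions of functions harmonic near `K` -/
def harmSub (K : Set (E n)) [CompactSpace K] : Submodule ℝ C(K, ℝ) where
  carrier := {g | ∃ u : E n → ℝ, HarmonicNear K u ∧ ∀ x : K, g x = u x}
  zero_mem' := ⟨fun _ => 0, ⟨univ, isOpen_univ, subset_univ _, by
    intro x _
    exact InnerProductSpace.harmonicAt_const (0 : ℝ)⟩, fun _ => rfl⟩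
  add_mem' := by
    rintro g₁ g₂ ⟨u₁, ⟨U₁, hU₁, hK₁, h₁⟩, hg₁⟩ ⟨u₂, ⟨U₂, hU₂, hK₂, h₂⟩, hg₂⟩
    refine ⟨u₁ + u₂, ⟨U₁ ∩ U₂, hU₁.inter hU₂, subset_inter hK₁ hK₂,
      (h₁.mono inter_subset_left).add (h₂.mono inter_subset_right)⟩, fun x => ?_⟩
    rw [ContinuousMap.add_apply, hg₁, hg₂, Pi.add_apply]
  smul_mem' := by
    rintro c g ⟨u, ⟨U, hU, hK, h⟩, hg⟩
    refine ⟨c • u, ⟨U, hU, hK, h.const_smul⟩, fun x => ?_⟩
    rw [ContinuousMap.smul_apply, hg, Pi.smul_apply]

theorem ann_of_vanish {K : Set (E n)} [CompactSpace K] {ℓ : C(K, ℝ) →L[ℝ] ℝ}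
    (h : ∀ g ∈ harmSub K, ℓ g = 0) : Ann K ℓ :=
  fun u hu g hg => h g ⟨u, hu, hg⟩

/-- **Main theorem**, for a size functional adapted to bumps. -/
theorem main_thm (hn : 3 ≤ n) {K : Set (E n)} (hK : IsCompact K) {f : E n → ℝ}
    (hf : Continuous f) {S : (E n → ℝ) → ℝ} (hS : SizeOK S) (h : Cond2 K f S) : Cond1 K f := by
  have : CompactSpace K := isCompact_iff_compactSpace.1 hK
  have hn0 : 0 < n := by omega
  obtain ⟨c, hc0, hc⟩ := newton_laplacian hn
  obtain ⟨A, hA, hSA⟩ := hS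
  obtain ⟨η, hη, hcp⟩ := h
  -- the cut-off
  obtain ⟨χ, hχ1, _, hχs, _⟩ := exists_continuous_one_zero_of_isCompact
    (hK.cthickening (r := 2)) isClosed_empty (disjoint_empty _)
  set ft : E n → ℝ := fun x => χ x * f x with hft
  have hftc : Continuous ft := χ.continuous.mul hf
  have hfts : HasCompactSupport ft := hχs.mul_right
  have hfteq : ∀ x ∈ cthickening 2 K, ft x = f x := by
    intro x hx
    rw [hft]
    simp only
    rw [hχ1 hx, Pi.one_apply, one_mul]
  set fK : C(K, ℝ) := ⟨fun x => f x, hf.comp continuous_subtype_val⟩ with hfK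
  have hKth : ∀ x ∈ K, x ∈ cthickening 2 K := fun x hx => self_subset_cthickening _ hx
  -- the key: annihilating functionals kill `f`
  have key : ∀ ℓ : C(K, ℝ) →L[ℝ] ℝ, Ann K ℓ → ℓ fK = 0 := by
    intro ℓ hℓ
    set Q : ℝ≥0∞ := ENNReal.ofReal (2 * ((n : ℝ) + 1) ^ n * A / c1 n) *
      (ENNReal.ofReal (c2 n) * c3 n * ENNReal.ofReal (2 * (c * ‖ℓ‖))) with hQ
    have hQfin : Q ≠ ⊤ := by
      apply ENNReal.mul_ne_top ENNReal.ofReal_ne_top
      apply ENNReal.mul_ne_top _ ENNReal.ofReal_ne_top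
      exact ENNReal.mul_ne_top ENNReal.ofReal_ne_top (c3_fin n)
    have hc1 := c1_pos hn
    have hest : ∀ δ : ℝ, 0 < δ → |ℓ fK| ≤ δ * (Q.toReal / c + 2 * ‖ℓ‖) := by
      intro δ hδ
      obtain ⟨s₀, hs₀, happ⟩ := phi_approx hftc hfts hδ
      have hlim := hη.lim
      rw [Metric.tendsto_nhdsWithin_nhds] at hlim
      obtain ⟨e, he0, he⟩ := hlim δ hδ
      obtain ⟨s, hs, hs1, hs2, hs3⟩ : ∃ s : ℝ, 0 < s ∧ s ≤ 1 ∧ s < s₀ ∧ 2 * s < e := by
        refine ⟨min 1 (min (s₀ / 2) (e / 4)), ?_, min_le_left _ _, ?_, ?_⟩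
        · positivity
        · have := (min_le_right (1 : ℝ) (min (s₀ / 2) (e / 4))).trans (min_le_left _ _); linarith
        · have := (min_le_right (1 : ℝ) (min (s₀ / 2) (e / 4))).trans (min_le_right _ _); linarith
      have hη2 : η (2 * s) ≤ δ := by
        have h1 : dist (2 * s) 0 < e := by
          rw [dist_zero_right, Real.norm_eq_abs, abs_of_pos (by positivity)]; exact hs3
        have h2 := he (show 2 * s ∈ Ioi (0 : ℝ) by rw [mem_Ioi]; positivity) h1
        rw [dist_zero_right, Real.norm_eq_abs] at h2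
        exact (le_abs_self _).trans h2.le
      have hη0 : 0 ≤ η (2 * s) := hη.nonneg _ (by positivity)
      set φ := cv ft (bumpS s (0 : E n)) with hφ
      have hφ1 : ContDiff ℝ ∞ φ := cv_smooth hftc.locallyIntegrable (bumpS_smooth s 0) (bumpS_cs hs 0)
      have hφ2 : HasCompactSupport φ := cv_cs hfts (bumpS_cs hs 0)
      set D : ℝ := δ * (A * (s ^ n)⁻¹) with hD
      have hb : ∀ z, (∃ x ∈ K, dist z x ≤ 1) →
          ENNReal.ofReal |(Δ φ) z| ≤ ENNReal.ofReal D * hcap (closedBall z s \ K) := by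
        rintro z ⟨x, hx, hzx⟩
        have h1 : ∀ t ∈ closedBall z s, ft t = f t := by
          intro t ht
          apply hfteq
          apply mem_cthickening_of_dist_le t x 2 K hx
          have h2 := mem_closedBall.1 ht
          have h3 := dist_triangle t z x
          linarith
        rw [hφ, phi_lap hftc hs h1]
        have h2 := hcp (bumpS s z) (bumpS_smooth s z) (bumpS_cs hs z) (bumpS_ne hs z) z s
          (bumpS_least hn0 hs z)
        refine h2.trans ?_
        rw [bumpS_diam hn0 hs]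
        gcongr
        rw [hD]
        calc η (2 * s) * S (bumpS s z) ≤ η (2 * s) * (A * (s ^ n)⁻¹) := by
              gcongr
              exact hSA s z hs
          _ ≤ δ * (A * (s ^ n)⁻¹) := by gcongr
      obtain ⟨g, hg1, hg2⟩ := ell_bound hn hc0 hc ℓ hℓ hφ1 hφ2 hs hb hδ
      have h3 : ENNReal.ofReal (c * |ℓ g|) ≤ ENNReal.ofReal δ * Q := by
        refine hg2.trans (le_of_eq ?_)
        rw [hQ, ← mul_assoc, ← mul_assoc (ENNReal.ofReal δ), ← ENNReal.ofReal_mul (by positivity),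
          ← ENNReal.ofReal_mul (by positivity)]
        congr 2
        rw [hD, mul_pow]
        field_simp
      have h4 : c * |ℓ g| ≤ δ * Q.toReal := by
        have h5 := ENNReal.toReal_mono (ENNReal.mul_ne_top ENNReal.ofReal_ne_top hQfin) h3
        rwa [ENNReal.toReal_ofReal (by positivity), ENNReal.toReal_mul,
          ENNReal.toReal_ofReal hδ.le] at h5
      have h5 : |ℓ g| ≤ δ * (Q.toReal / c) := by
        rw [← mul_div_assoc, le_div_iff₀ hc0]
        linarith
      have h6 : ‖fK - g‖ ≤ 2 * δ := by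
        rw [ContinuousMap.norm_le _ (by positivity)]
        intro x
        have h7 := hg1 x
        have h8 := happ s hs hs2 x
        rw [hfteq x (hKth x x.2)] at h8
        have h9 : (fK - g) x = -((g x - φ x) + (φ x - f x)) := by
          change f x - g x = _
          ring
        rw [h9, norm_neg]
        refine (norm_add_le _ _).trans ?_
        rw [Real.norm_eq_abs, Real.norm_eq_abs]
        linarith
      have h7 : |ℓ (fK - g)| ≤ ‖ℓ‖ * (2 * δ) := by
        have h8 := ℓ.le_opNorm (fK - g)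
        rw [Real.norm_eq_abs] at h8
        exact h8.trans (by gcongr)
      have h8 : ℓ fK = ℓ g + ℓ (fK - g) := by rw [map_sub]; ring
      rw [h8]
      refine (abs_add_le _ _).trans ?_
      linarith
    have h1 : |ℓ fK| ≤ 0 := by
      set B := Q.toReal / c + 2 * ‖ℓ‖ with hB
      have hB0 : 0 ≤ B := by positivity
      apply le_of_forall_pos_le_add
      intro ε hε
      have h2 := hest (ε / (B + 1)) (by positivity)
      rw [zero_add]
      refine h2.trans ?_
      rw [div_mul_eq_mul_div, div_le_iff₀ (by positivity)]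
      nlinarith
    exact abs_nonpos_iff.1 h1
  -- Hahn-Banach
  have hcl : fK ∈ closure (harmSub K : Set C(K, ℝ)) := by
    by_contra hcon
    have hcv : Convex ℝ (closure (harmSub K : Set C(K, ℝ))) := (harmSub K).convex.closure
    obtain ⟨ℓ, u, hℓ, hu⟩ := geometric_hahn_banach_closed_point hcv isClosed_closure hcon
    have h0 : ∀ g ∈ harmSub K, ℓ g = 0 := by
      intro g hg
      by_contra hne
      have h1 : ∀ a : ℝ, a * ℓ g < u := by
        intro a
        have h2 := hℓ (a • g) (subset_closure ((harmSub K).smul_mem a hg))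
        rwa [map_smul, smul_eq_mul] at h2
      have h3 := h1 ((u + 1) / ℓ g)
      rw [div_mul_cancel₀ _ hne] at h3
      linarith
    have h1 := key ℓ (ann_of_vanish h0)
    have h2 := hℓ 0 (subset_closure (harmSub K).zero_mem)
    rw [map_zero] at h2
    rw [h1] at hu
    exact lt_asymm h2 hu
  have hex : ∀ j : ℕ, ∃ u : E n → ℝ, HarmonicNear K u ∧ ∀ x ∈ K, |f x - u x| < 1 / ((j : ℝ) + 1) := by
    intro j
    obtain ⟨g, ⟨u, hu, hgu⟩, hd⟩ := Metric.mem_closure_iff.1 hcl (1 / ((j : ℝ) + 1)) (by positivity)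
    refine ⟨u, hu, fun x hx => ?_⟩
    have h1 := (ContinuousMap.dist_lt_iff (by positivity)).1 hd ⟨x, hx⟩
    rw [hgu, Real.dist_eq] at h1
    exact h1
  choose F hF1 hF2 using hex
  refine ⟨F, hF1, ?_⟩
  rw [Metric.tendstoUniformlyOn_iff]
  intro ε hε
  obtain ⟨N, hN⟩ := exists_nat_one_div_lt hε
  filter_upwards [eventually_ge_atTop N] with j hj x hx
  rw [Real.dist_eq]
  refine (hF2 j x hx).trans (lt_of_le_of_lt ?_ hN)
  gcongr

end Pool.Agent.W797.Har
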