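import Pool.Agent.W797.Har.Conv

/-! # Smoothed Newtonian kernel -/

set_option autoImplicit false

open MeasureTheory Set Filter Topology Metric
open scoped InnerProductSpace ContDiff Laplacian ENNReal Convolution
open Pool.Agent.Helper486.TP

namespace Pool.Agent.W797.Har

variable {n : ℕ}

/-- Real Newtonian kernel. -/
noncomputable def NN (x : E n) : ℝ := (‖x‖ ^ (n - 2))⁻¹

theorem newton_real (a y : E n) : (newton a y).toReal = NN (a - y) := by
  rw [newton, NN, ENNReal.toReal_inv, ENNReal.toReal_pow, ENNReal.toReal_ofReal (norm_nonneg _)]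

theorem NN_measurable : Measurable (NN (n := n)) := by
  unfold NN
  exact (measurable_norm.pow_const _).inv

theorem NN_locInt (hn : 3 ≤ n) : LocallyIntegrable (NN (n := n)) := by
  rw [locallyIntegrable_iff]
  intro K hK
  obtain ⟨C, hC, h⟩ := newton_locInt hn K hK
  have h1 : IntegrableOn (fun y => (newton (0 : E n) y).toReal) K := by
    apply integrable_toReal_of_lintegral_ne_top (newton_measurable 0).aemeasurable
    exact ((h 0).trans_lt (lt_top_iff_ne_top.2 hC)).ne
  have h2 : (fun y : E n => (newton (0 : E n) y).toReal) = NN := by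
    ext y
    rw [newton_real, NN, NN, zero_sub, norm_neg]
  rwa [h2] at h1

/-- the constant property of the Newtonian kernel -/
def NewtConst (n : ℕ) (c : ℝ) : Prop :=
  ∀ φ : E n → ℝ, ContDiff ℝ ∞ φ → HasCompactSupport φ → ∀ a : E n,
      ∫ y, (newton a y).toReal * (Δ φ) y = -c * φ a

theorem lap_P (hn : 3 ≤ n) {c : ℝ} (hc : NewtConst n c) {κ : E n → ℝ} (hκ : ContDiff ℝ ∞ κ)
    (hs : HasCompactSupport κ) (x : E n) : (Δ (cv NN κ)) x = -c * κ x := by
  rw [lap_cv (NN_locInt hn) hκ hs, cv_apply, ← hc κ hκ hs x]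
  rw [← integral_sub_left_eq_self _ volume x]
  congr 1
  ext t
  rw [newton_real, sub_sub_cancel]

theorem P_smooth (hn : 3 ≤ n) {κ : E n → ℝ} (hκ : ContDiff ℝ ∞ κ)
    (hs : HasCompactSupport κ) : ContDiff ℝ ∞ (cv NN κ) := cv_smooth (NN_locInt hn) hκ hs

/-- translates of the smoothed kernel are harmonic away from the support -/
theorem P_harm (hn : 3 ≤ n) {c : ℝ} (hc : NewtConst n c) {κ : E n → ℝ} (hκ : ContDiff ℝ ∞ κ)
    (hs : HasCompactSupport κ) {z x : E n} (hx : x - z ∉ tsupport κ) :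
    InnerProductSpace.HarmonicAt (fun y => cv NN κ (y - z)) x := by
  have hP := P_smooth hn hκ hs
  refine ⟨?_, ?_⟩
  · exact ((hP.comp (contDiff_id.sub contDiff_const)).of_le two_le_infty).contDiffAt
  · have h1 : ∀ᶠ y in 𝓝 x, y - z ∉ tsupport κ := by
      have : ContinuousAt (fun y : E n => y - z) x := by fun_prop
      exact this.eventually ((isClosed_tsupport κ).isOpen_compl.mem_nhds hx)
    filter_upwards [h1] with y hy
    rw [lap_comp_sub]
    change (Δ (cv NN κ)) (y - z) = 0
    rw [lap_P hn hc hκ hs, image_eq_zero_of_notMem_tsupport hy]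
    simp

/-- `∫ P(x-z) Δφ(z) dz = -c (κ * φ)(x)` -/
theorem P_pair (hn : 3 ≤ n) {c : ℝ} (hc : NewtConst n c) {κ : E n → ℝ} (hκ : ContDiff ℝ ∞ κ)
    (hs : HasCompactSupport κ) (he : ∀ x, κ (-x) = κ x) {φ : E n → ℝ} (hφ : ContDiff ℝ ∞ φ)
    (hφs : HasCompactSupport φ) (x : E n) :
    ∫ z, cv NN κ (x - z) * (Δ φ) z = -c * cv κ φ x := by
  have hP := P_smooth hn hκ hs
  have hPe : ∀ x, cv NN κ (-x) = cv NN κ x := by
    intro x
    rw [cv_apply, cv_apply, ← integral_neg_eq_self _ volume]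
    congr 1
    ext t
    have h1 : NN (-t) = NN t := by simp [NN]
    have h2 : κ (-x - -t) = κ (x - t) := by
      rw [← he (x - t)]; congr 1; abel
    rw [h1, h2]
  have h1 : ∀ z, cv NN κ (x - z) = cv NN κ (z - x) := by
    intro z; rw [← hPe (z - x), neg_sub]
  simp_rw [h1]
  have hQ : ContDiff ℝ ∞ (fun z => cv NN κ (z - x)) := hP.comp (contDiff_id.sub contDiff_const)
  rw [green2 hQ hφ hφs]
  rw [lap_comp_sub]
  simp_rw [lap_P hn hc hκ hs]
  rw [cv_apply, ← integral_const_mul, ← integral_sub_left_eq_self _ volume x]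
  congr 1
  ext t
  have h3 : x - t - x = -t := by abel
  rw [h3, he]
  ring

end Pool.Agent.W797.Har
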